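import Pool.Agent.V7H8.CoverA

/-!
Module A, second part: the area of the truncated square and `upper_bound`.
-/

set_option autoImplicit false
open MeasureTheory Set

namespace Pool.Agent.V7H8.Cover

/-- the region `1 - g ≤ y ≤ g` over `[a, b]` -/
def strip (a b : ℝ) (g : ℝ → ℝ) : Set (ℝ × ℝ) :=
  {p | p.1 ∈ Icc a b ∧ 1 - g p.1 ≤ p.2 ∧ p.2 ≤ g p.1}

theorem strip_vol {a b : ℝ} (hab : a ≤ b) {g : ℝ → ℝ} (hg : Continuous g)
    (hpos : ∀ x ∈ Icc a b, 1 - g x ≤ g x) :
    volume (strip a b g) = ENNReal.ofReal (∫ x in a..b, (2 * g x - 1)) := by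
  have hcl : IsClosed (strip a b g) := by
    have h1 : IsClosed {p : ℝ × ℝ | p.1 ∈ Icc a b} := isClosed_Icc.preimage continuous_fst
    have h2 : IsClosed {p : ℝ × ℝ | 1 - g p.1 ≤ p.2} := isClosed_le (by fun_prop) (by fun_prop)
    have h3 : IsClosed {p : ℝ × ℝ | p.2 ≤ g p.1} := isClosed_le (by fun_prop) (by fun_prop)
    exact h1.inter (h2.inter h3)
  rw [Measure.volume_eq_prod, Measure.prod_apply hcl.measurableSet]
  have h1 : ∀ x : ℝ, volume (Prod.mk x ⁻¹' strip a b g)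
      = (Icc a b).indicator (fun x => ENNReal.ofReal (2 * g x - 1)) x := by
    intro x
    by_cases hx : x ∈ Icc a b
    · rw [indicator_of_mem hx]
      have : Prod.mk x ⁻¹' strip a b g = Icc (1 - g x) (g x) := by
        ext y
        simp only [strip, mem_preimage, mem_ofPred_eq, mem_Icc]
        constructor
        · rintro ⟨_, h⟩; exact h
        · intro h; exact ⟨⟨hx.1, hx.2⟩, h⟩
      rw [this, Real.volume_Icc]
      congr 1; ring
    · rw [indicator_of_notMem hx]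
      have : Prod.mk x ⁻¹' strip a b g = ∅ := by
        ext y
        simp only [strip, mem_preimage, mem_ofPred_eq, mem_empty_iff_false, iff_false]
        intro h; exact hx h.1
      rw [this, measure_empty]
  simp_rw [h1]
  rw [lintegral_indicator measurableSet_Icc, intervalIntegral.integral_of_le hab,
    ← integral_Icc_eq_integral_Ioc]
  rw [ofReal_integral_eq_lintegral_ofReal]
  · exact (Continuous.continuousOn (by fun_prop)).integrableOn_compact isCompact_Icc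
  · refine (ae_restrict_iff' measurableSet_Icc).2 (Filter.Eventually.of_forall fun x hx => ?_)
    have := hpos x hx
    simp only [Pi.zero_apply]
    linarith

/-- the upper boundary curve -/
noncomputable def g0 (x : ℝ) : ℝ := (Real.sqrt 3 * x + Real.sqrt (1 - x ^ 2)) / 2

theorem g0_cont : Continuous g0 := by unfold g0; fun_prop

theorem corner_bound {p : ℝ × ℝ} (hp : p ∈ corner) (hx : Real.sqrt 3 / 2 ≤ p.1) (hx1 : p.1 ≤ 1) :
    p.2 ≤ g0 p.1 := by
  obtain ⟨u, v, h, hu, hv⟩ := hp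
  have hr2 : Real.sqrt 3 ^ 2 = 3 := Real.sq_sqrt (by norm_num)
  have hr0 : 0 < Real.sqrt 3 := Real.sqrt_pos.2 (by norm_num)
  unfold g0
  set r := Real.sqrt 3 with hr
  set x := p.1
  have hx0 : 0 ≤ x := by linarith
  set c := Real.sqrt (1 - x ^ 2) with hc
  have hc2 : c ^ 2 = 1 - x ^ 2 := Real.sq_sqrt (by nlinarith)
  have hc0 : 0 ≤ c := Real.sqrt_nonneg _
  have hv1 : v ≤ 1 := by
    have e1 : (u - r * v / 2) ^ 2 + (4 - r ^ 2) / 4 * v ^ 2 = u ^ 2 + v ^ 2 - r * u * v := by ring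
    rw [hr2] at e1
    have : v ^ 2 ≤ 1 ^ 2 := by nlinarith [sq_nonneg (u - r * v / 2)]
    exact le_of_sq_le_sq_real this (by norm_num)
  have h1 : x ^ 2 + v ^ 2 - r * x * v ≤ 1 / 4 := by
    have e1 : (u ^ 2 + v ^ 2 - r * u * v) - (x ^ 2 + v ^ 2 - r * x * v)
        = (u - x) * (u + x - r * v) := by ring
    have e2 : 0 ≤ (u - x) * (u + x - r * v) := by
      apply mul_nonneg (by linarith)
      have := mul_le_mul_of_nonneg_left hv1 hr0.le
      linarith
    linarith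
  by_contra hcon
  push Not at hcon
  have hvg : (r * x + c) / 2 < v := lt_of_lt_of_le hcon hv
  have e3 : (x ^ 2 + v ^ 2 - r * x * v) - (x ^ 2 + ((r * x + c) / 2) ^ 2 - r * x * ((r * x + c) / 2))
      = (v - (r * x + c) / 2) * (v + (r * x + c) / 2 - r * x) := by ring
  have e4 : x ^ 2 + ((r * x + c) / 2) ^ 2 - r * x * ((r * x + c) / 2)
      = x ^ 2 + (c ^ 2 - r ^ 2 * x ^ 2) / 4 := by ring
  rw [e4, hc2, hr2] at e3
  have e5 : 0 < (v - (r * x + c) / 2) * (v + (r * x + c) / 2 - r * x) := by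
    apply mul_pos (by linarith)
    linarith
  linarith

theorem integral_sqrt_part : ∫ x in (Real.sqrt 3 / 2)..1, Real.sqrt (1 - x ^ 2)
    = Real.pi / 12 - Real.sqrt 3 / 8 := by
  have hr2 : Real.sqrt 3 ^ 2 = 3 := Real.sq_sqrt (by norm_num)
  have hr0 : 0 < Real.sqrt 3 := Real.sqrt_pos.2 (by norm_num)
  have hr4 : Real.sqrt 3 < 2 := by
    apply lt_of_pow_lt_pow_left₀ 2 (by norm_num); rw [hr2]; norm_num
  have h := intervalIntegral.integral_eq_sub_of_hasDerivAt_of_le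
    (a := Real.sqrt 3 / 2) (b := 1)
    (f := fun x => (x * Real.sqrt (1 - x ^ 2) + Real.arcsin x) / 2)
    (f' := fun x => Real.sqrt (1 - x ^ 2)) (by linarith) ?_ ?_ ?_
  · rw [h]
    have h1 : Real.arcsin (Real.sqrt 3 / 2) = Real.pi / 3 := by
      rw [← Real.sin_pi_div_three]
      exact Real.arcsin_sin (by linarith [Real.pi_pos]) (by linarith [Real.pi_pos])
    have h2 : Real.sqrt (1 - (Real.sqrt 3 / 2) ^ 2) = 1 / 2 := by
      rw [div_pow, hr2]
      rw [show (1 : ℝ) - 3 / 2 ^ 2 = (1 / 2) ^ 2 by norm_num, Real.sqrt_sq (by norm_num)]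
    simp only [h1, h2, Real.arcsin_one]
    rw [show (1 : ℝ) - 1 ^ 2 = 0 by norm_num, Real.sqrt_zero]
    ring
  · apply Continuous.continuousOn
    have := Real.continuous_arcsin
    fun_prop
  · intro x hx
    have hx1 : x < 1 := hx.2
    have hx0 : 0 < x := by have := hx.1; linarith
    have hpos : 0 < 1 - x ^ 2 := by nlinarith
    have hs : HasDerivAt (fun x : ℝ => Real.sqrt (1 - x ^ 2)) (-(2 * x) / (2 * Real.sqrt (1 - x ^ 2))) x := by
      have h1 : HasDerivAt (fun x : ℝ => 1 - x ^ 2) (-(2 * x)) x := by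
        have := ((hasDerivAt_id x).pow 2).const_sub 1
        simpa using this
      exact h1.sqrt hpos.ne'
    have ha : HasDerivAt Real.arcsin (1 / Real.sqrt (1 - x ^ 2)) x :=
      Real.hasDerivAt_arcsin (by linarith) (by linarith)
    have hm := (((hasDerivAt_id x).mul hs).add ha).div_const 2
    have hs0 : Real.sqrt (1 - x ^ 2) ≠ 0 := (Real.sqrt_pos.2 hpos).ne'
    have hs2 : Real.sqrt (1 - x ^ 2) ^ 2 = 1 - x ^ 2 := Real.sq_sqrt hpos.le
    refine HasDerivAt.congr_deriv (f := fun x => (x * Real.sqrt (1 - x ^ 2) + Real.arcsin x) / 2)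
      hm ?_
    simp only [id_eq, one_mul]
    generalize Real.sqrt (1 - x ^ 2) = w at hs0 hs2 ⊢
    field_simp
    linarith
  · apply Continuous.intervalIntegrable
    fun_prop

theorem integral_g0 : ∫ x in (Real.sqrt 3 / 2)..1, (2 * g0 x - 1)
    = Real.pi / 12 - 1 + Real.sqrt 3 / 2 := by
  have hr2 : Real.sqrt 3 ^ 2 = 3 := Real.sq_sqrt (by norm_num)
  have h1 : ∀ x : ℝ, 2 * g0 x - 1 = (Real.sqrt 3 * x - 1) + Real.sqrt (1 - x ^ 2) := by
    intro x; unfold g0; ring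
  simp_rw [h1]
  rw [intervalIntegral.integral_add, integral_sqrt_part]
  · have : ∫ x in (Real.sqrt 3 / 2)..1, (Real.sqrt 3 * x - 1)
        = Real.sqrt 3 / 8 - (1 - Real.sqrt 3 / 2) := by
      rw [intervalIntegral.integral_sub, intervalIntegral.integral_const_mul, integral_id,
        intervalIntegral.integral_const]
      · rw [div_pow, hr2]; simp; ring
      · exact (Continuous.intervalIntegrable (by fun_prop) _ _)
      · exact (Continuous.intervalIntegrable (by fun_prop) _ _)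
    rw [this]; ring
  · exact (Continuous.intervalIntegrable (by fun_prop) _ _)
  · exact (Continuous.intervalIntegrable (by fun_prop) _ _)

/-- the truncated square -/
def Kup : Set (ℝ × ℝ) :=
  {p | (0 ≤ p.1 ∧ p.1 ≤ 1) ∧ (0 ≤ p.2 ∧ p.2 ≤ 1) ∧ p ∈ corner ∧ (1 - p.1, p.2) ∈ corner ∧
    (p.1, 1 - p.2) ∈ corner ∧ (1 - p.1, 1 - p.2) ∈ corner}

theorem Kup_convex : Convex ℝ Kup := by
  rintro x ⟨⟨hx1, hx2⟩, ⟨hx3, hx4⟩, hx5, hx6, hx7, hx8⟩ y
    ⟨⟨hy1, hy2⟩, ⟨hy3, hy4⟩, hy5, hy6, hy7, hy8⟩ a b ha hb hab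
  have hb' : b = 1 - a := by linarith
  refine ⟨⟨?_, ?_⟩, ⟨?_, ?_⟩, corner_convex hx5 hy5 ha hb hab, ?_, ?_, ?_⟩
  · simp only [Prod.fst_add, Prod.smul_fst, smul_eq_mul]; positivity
  · simp only [Prod.fst_add, Prod.smul_fst, smul_eq_mul]; nlinarith
  · simp only [Prod.snd_add, Prod.smul_snd, smul_eq_mul]; positivity
  · simp only [Prod.snd_add, Prod.smul_snd, smul_eq_mul]; nlinarith
  · convert corner_convex hx6 hy6 ha hb hab using 1
    ext
    · simp [hb']; ring
    · simp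
  · convert corner_convex hx7 hy7 ha hb hab using 1
    ext
    · simp
    · simp [hb']; ring
  · convert corner_convex hx8 hy8 ha hb hab using 1
    ext
    · simp [hb']; ring
    · simp [hb']; ring

theorem Kup_vol : volume Kup ≤ ENNReal.ofReal Astar := by
  have hr2 : Real.sqrt 3 ^ 2 = 3 := Real.sq_sqrt (by norm_num)
  have hr0 : 0 < Real.sqrt 3 := Real.sqrt_pos.2 (by norm_num)
  have hr4 : Real.sqrt 3 < 2 := by
    apply lt_of_pow_lt_pow_left₀ 2 (by norm_num); rw [hr2]; norm_num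
  have hr1 : 1 < Real.sqrt 3 := by
    apply lt_of_pow_lt_pow_left₀ 2 hr0.le; rw [hr2]; norm_num
  have hsub : Kup ⊆ strip (Real.sqrt 3 / 2) 1 g0 ∪ strip 0 (1 - Real.sqrt 3 / 2) (fun x => g0 (1 - x))
      ∪ (Icc (1 - Real.sqrt 3 / 2) (Real.sqrt 3 / 2) ×ˢ Icc (0 : ℝ) 1) := by
    rintro p ⟨⟨h1, h2⟩, ⟨h3, h4⟩, h5, h6, h7, h8⟩
    by_cases hA : Real.sqrt 3 / 2 ≤ p.1
    · left; left
      refine ⟨⟨hA, h2⟩, ?_, corner_bound h5 hA h2⟩
      have := corner_bound h7 hA h2
      simp only at this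
      linarith
    · push Not at hA
      by_cases hB : p.1 ≤ 1 - Real.sqrt 3 / 2
      · left; right
        refine ⟨⟨h1, hB⟩, ?_, ?_⟩
        · have := corner_bound h8 (by simp only; linarith) (by simp only; linarith)
          simp only at this ⊢
          linarith
        · have := corner_bound h6 (by simp only; linarith) (by simp only; linarith)
          simpa using this
      · push Not at hB
        right
        exact ⟨⟨hB.le, hA.le⟩, ⟨h3, h4⟩⟩
  have hg : ∀ x ∈ Icc (Real.sqrt 3 / 2) 1, 1 - g0 x ≤ g0 x := by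
    intro x hx
    unfold g0
    have h1 := mul_le_mul_of_nonneg_left hx.1 hr0.le
    have h2 : Real.sqrt 3 * (Real.sqrt 3 / 2) = 3 / 2 := by
      have : Real.sqrt 3 * (Real.sqrt 3 / 2) = Real.sqrt 3 ^ 2 / 2 := by ring
      rw [this, hr2]
    have h3 := Real.sqrt_nonneg (1 - x ^ 2)
    linarith
  have hg' : ∀ x ∈ Icc 0 (1 - Real.sqrt 3 / 2), 1 - g0 (1 - x) ≤ g0 (1 - x) := by
    intro x hx
    exact hg (1 - x) ⟨by linarith [hx.2], by linarith [hx.1]⟩
  have hv1 := strip_vol (a := Real.sqrt 3 / 2) (b := 1) (by linarith) g0_cont hg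
  have hv2 := strip_vol (a := 0) (b := 1 - Real.sqrt 3 / 2) (g := fun x => g0 (1 - x)) (by linarith)
    (by have := g0_cont; fun_prop) hg'
  rw [integral_g0] at hv1
  have hint2 : ∫ x in (0:ℝ)..(1 - Real.sqrt 3 / 2), (2 * g0 (1 - x) - 1)
      = Real.pi / 12 - 1 + Real.sqrt 3 / 2 := by
    rw [intervalIntegral.integral_comp_sub_left (fun x => 2 * g0 x - 1) 1]
    rw [show (1 : ℝ) - (1 - Real.sqrt 3 / 2) = Real.sqrt 3 / 2 by ring, sub_zero, integral_g0]
  rw [hint2] at hv2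
  have hv3 : volume (Icc (1 - Real.sqrt 3 / 2) (Real.sqrt 3 / 2) ×ˢ Icc (0 : ℝ) 1)
      = ENNReal.ofReal (Real.sqrt 3 - 1) := by
    rw [Measure.volume_eq_prod, Measure.prod_prod, Real.volume_Icc, Real.volume_Icc]
    rw [show Real.sqrt 3 / 2 - (1 - Real.sqrt 3 / 2) = Real.sqrt 3 - 1 by ring]
    simp
  have hnn : 0 ≤ Real.pi / 12 - 1 + Real.sqrt 3 / 2 := by
    rw [← integral_g0]
    apply intervalIntegral.integral_nonneg (by linarith)
    intro x hx
    have := hg x hx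
    linarith
  calc volume Kup ≤ _ := measure_mono hsub
    _ ≤ volume (strip (Real.sqrt 3 / 2) 1 g0 ∪ strip 0 (1 - Real.sqrt 3 / 2) (fun x => g0 (1 - x)))
        + volume (Icc (1 - Real.sqrt 3 / 2) (Real.sqrt 3 / 2) ×ˢ Icc (0 : ℝ) 1) :=
          measure_union_le _ _
    _ ≤ (volume (strip (Real.sqrt 3 / 2) 1 g0)
        + volume (strip 0 (1 - Real.sqrt 3 / 2) (fun x => g0 (1 - x))))
        + volume (Icc (1 - Real.sqrt 3 / 2) (Real.sqrt 3 / 2) ×ˢ Icc (0 : ℝ) 1) := by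
          gcongr
          exact measure_union_le _ _
    _ = ENNReal.ofReal Astar := by
          rw [hv1, hv2, hv3, ← ENNReal.ofReal_add hnn hnn, ← ENNReal.ofReal_add (by linarith)
            (by linarith)]
          congr 1
          unfold Astar
          ring

theorem Kup_cov (S : Set (ℝ × ℝ)) (hS : ∀ p ∈ S, ∀ q ∈ S, sq2 p q ≤ 1) :
    ∃ v : ℝ × ℝ, ∀ p ∈ S, p + v ∈ Kup := by
  obtain ⟨a, ha⟩ := step S hS (1, 0) (by norm_num)
  have hT : ∀ p ∈ insert a (insert (a + (1, 0)) S), ∀ q ∈ insert a (insert (a + (1, 0)) S),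
      sq2 p q ≤ 1 := by
    have hsymm : ∀ p q : ℝ × ℝ, sq2 p q = sq2 q p := by intro p q; unfold sq2; ring
    have hself : ∀ p : ℝ × ℝ, sq2 p p ≤ 1 := by intro p; unfold sq2; norm_num
    have haa : sq2 a (a + (1, 0)) ≤ 1 := by unfold sq2; simp
    intro p hp q hq
    simp only [mem_insert_iff] at hp hq
    rcases hp with h1 | h1 | h1 <;> rcases hq with h2 | h2 | h2
    · rw [h1, h2]; exact hself _
    · rw [h1, h2]; exact haa
    · rw [h1]; exact (ha q h2).1
    · rw [h1, h2, hsymm]; exact haa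
    · rw [h1, h2]; exact hself _
    · rw [h1]; exact (ha q h2).2
    · rw [h2, hsymm]; exact (ha p h1).1
    · rw [h2, hsymm]; exact (ha p h1).2
    · exact hS p h1 q h2
  obtain ⟨b, hb⟩ := step _ hT (0, 1) (by norm_num)
  have hba := hb a (mem_insert _ _)
  have hba1 := hb (a + (1, 0)) (mem_insert_of_mem _ (mem_insert _ _))
  refine ⟨(-a.1, -b.2), fun p hp => ?_⟩
  have h1 := (ha p hp).1
  have h2 := (ha p hp).2
  have h3 := (hb p (mem_insert_of_mem _ (mem_insert_of_mem _ hp))).1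
  have h4 := (hb p (mem_insert_of_mem _ (mem_insert_of_mem _ hp))).2
  obtain ⟨a1, a2⟩ := a
  obtain ⟨b1, b2⟩ := b
  obtain ⟨x, y⟩ := p
  simp only [sq2, Prod.mk_add_mk, add_zero] at h1 h2 h3 h4 hba hba1
  obtain ⟨k1, k2⟩ := hba
  obtain ⟨k3, k4⟩ := hba1
  have hx0 : 0 ≤ x + -a1 := by nlinarith [sq_nonneg (a2 - y)]
  have hx1 : x + -a1 ≤ 1 := by nlinarith [sq_nonneg (a2 - y)]
  have hy0 : 0 ≤ y + -b2 := by nlinarith [sq_nonneg (b1 - x)]
  have hy1 : y + -b2 ≤ 1 := by nlinarith [sq_nonneg (b1 - x)]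
  show (x + -a1, y + -b2) ∈ Kup
  refine ⟨⟨hx0, hx1⟩, ⟨hy0, hy1⟩, ?_, ?_, ?_, ?_⟩
  · exact corner_mem (s := a2 - b2) (t := b1 - a1) hx0 hx1 hy0 hy1 (by linarith) (by linarith)
      (by linarith)
  · exact corner_mem (s := a2 - b2) (t := 1 - (b1 - a1)) (x := 1 - (x + -a1)) (y := y + -b2)
      (by linarith) (by linarith) hy0 hy1 (by linarith) (by linarith) (by linarith)
  · exact corner_mem (s := 1 - (a2 - b2)) (t := b1 - a1) (x := x + -a1) (y := 1 - (y + -b2))
      hx0 hx1 (by linarith) (by linarith) (by linarith) (by linarith) (by linarith)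
  · exact corner_mem (s := 1 - (a2 - b2)) (t := 1 - (b1 - a1)) (x := 1 - (x + -a1))
      (y := 1 - (y + -b2)) (by linarith) (by linarith) (by linarith) (by linarith) (by linarith)
      (by linarith) (by linarith)

/-- module A -/
theorem upper_bound : ∃ K : Set (ℝ × ℝ), Convex ℝ K ∧
    (∀ S : Set (ℝ × ℝ), (∀ p ∈ S, ∀ q ∈ S, sq2 p q ≤ 1) → ∃ v : ℝ × ℝ, ∀ p ∈ S, p + v ∈ K) ∧
    volume K ≤ ENNReal.ofReal Astar :=
  ⟨Kup, Kup_convex, Kup_cov, Kup_vol⟩

end Pool.Agent.V7H8.Cover
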