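import Pool.Agent.V7H8.CoverE3

set_option autoImplicit false
open MeasureTheory Set

namespace Pool.Agent.V7H8.Cover

/-- three point form of concavity -/
theorem conc3 {P : ℝ → ℝ} {l r x y z : ℝ} (hP : ConcaveOn ℝ (Icc l r) P)
    (hl : l ≤ x) (hxy : x ≤ y) (hyz : y ≤ z) (hz : z ≤ r) :
    (z - y) * P x + (y - x) * P z ≤ (z - x) * P y := by
  rcases eq_or_lt_of_le (hxy.trans hyz) with h1 | h1
  · have e1 : x = y := le_antisymm hxy (by rw [h1]; exact hyz)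
    have e2 : z = y := by rw [← h1, e1]
    rw [e1, e2]; simp
  · have hpos : 0 < z - x := by linarith
    have ht0 : 0 ≤ (z - y) / (z - x) := div_nonneg (by linarith) hpos.le
    have ht1 : 0 ≤ (y - x) / (z - x) := div_nonneg (by linarith) hpos.le
    have hsum : (z - y) / (z - x) + (y - x) / (z - x) = 1 := by
      rw [← add_div]
      have : z - y + (y - x) = z - x := by ring
      rw [this, div_self hpos.ne']
    have h2 := hP.2 (⟨hl, by linarith⟩ : x ∈ Icc l r) (⟨by linarith, hz⟩ : z ∈ Icc l r)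
      ht0 ht1 hsum
    simp only [smul_eq_mul] at h2
    have h3 : (z - y) / (z - x) * x + (y - x) / (z - x) * z = y := by
      field_simp; ring
    rw [h3] at h2
    have h4 := mul_le_mul_of_nonneg_left h2 hpos.le
    have h5 : (z - x) * ((z - y) / (z - x) * P x + (y - x) / (z - x) * P z)
        = (z - y) * P x + (y - x) * P z := by
      field_simp
    linarith

theorem ends_lemma {f : ℝ → ℝ} {m y a η : ℝ} (_hm : 1 ≤ m) (hm2 : m ≤ 2)
    (hc : ContinuousOn f (Icc 0 m))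
    (hf : ConcaveOn ℝ (Icc 0 m) f) (h0 : y ≤ f 0) (h1 : y ≤ f m) (ha : a ∈ Icc (0:ℝ) (m - 1))
    (h2 : η ≤ f a) (h3 : η ≤ f (a + 1)) :
    1.5 * (m - 1) * η + 0.5 * (m - 1) * y ≤ (∫ x in (0:ℝ)..(m - 1), f x) + ∫ x in (1:ℝ)..m, f x := by
  obtain ⟨ha0, ha1⟩ := ha
  have hii : ∀ u v : ℝ, 0 ≤ u → u ≤ v → v ≤ m → IntervalIntegrable f volume u v := by
    intro u v hu huv hv
    apply ContinuousOn.intervalIntegrable
    rw [uIcc_of_le huv]
    exact hc.mono (Icc_subset_Icc hu hv)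
  have ht : ∀ u v : ℝ, 0 ≤ u → u ≤ v → v ≤ m → (v - u) * (f u + f v) / 2 ≤ ∫ x in u..v, f x := by
    intro u v hu huv hv
    exact trap huv (hc.mono (Icc_subset_Icc hu hv)) (hf.subset (Icc_subset_Icc hu hv)
      (convex_Icc _ _))
  have hmid : ∀ x : ℝ, a ≤ x → x ≤ a + 1 → η ≤ f x := by
    intro x hx1 hx2
    have := conc3 hf ha0 hx1 hx2 (by linarith)
    have e : a + 1 - a = 1 := by ring
    rw [e, one_mul] at this
    have g1 := mul_le_mul_of_nonneg_left h2 (by linarith : 0 ≤ a + 1 - x)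
    have g2 := mul_le_mul_of_nonneg_left h3 (by linarith : 0 ≤ x - a)
    linarith
  have hδ := hmid (m - 1) ha1 (by linarith)
  have h1' := hmid 1 (by linarith) (by linarith)
  have t1 := ht 0 a le_rfl ha0 (by linarith)
  have t2 := ht a (m - 1) ha0 ha1 (by linarith)
  have t3 := ht 1 (a + 1) (by norm_num) (by linarith) (by linarith)
  have t4 := ht (a + 1) m (by linarith) (by linarith) le_rfl
  rw [← intervalIntegral.integral_add_adjacent_intervals (hii 0 a le_rfl ha0 (by linarith))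
    (hii a (m - 1) ha0 ha1 (by linarith)), ← intervalIntegral.integral_add_adjacent_intervals
    (hii 1 (a + 1) (by norm_num) (by linarith) (by linarith))
    (hii (a + 1) m (by linarith) (by linarith) le_rfl)]
  have w1 : a * (y + η) ≤ a * (f 0 + f a) := mul_le_mul_of_nonneg_left (by linarith) ha0
  have w2 : (m - 1 - a) * (η + η) ≤ (m - 1 - a) * (f a + f (m - 1)) :=
    mul_le_mul_of_nonneg_left (by linarith) (by linarith)
  have w3 : a * (η + η) ≤ a * (f 1 + f (a + 1)) :=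
    mul_le_mul_of_nonneg_left (by linarith) ha0
  have w4 : (m - 1 - a) * (η + y) ≤ (m - 1 - a) * (f (a + 1) + f m) :=
    mul_le_mul_of_nonneg_left (by linarith) (by linarith)
  linarith

theorem fin_comb {δ k μ Λ E1 E2 M1 PI I s3 pi6 : ℝ} (hδ0 : 0 ≤ δ) (hs : 1.7320508 < s3)
    (hμ1 : 1 ≤ μ)
    (hends : 1.5 * δ * (s3 - μ - |k| * δ) ≤ E1 + E2)
    (hPint : PI ≤ M1 + δ * Λ)
    (hlow : pi6 + 2 * (s3 - 3 / 2) * μ + 0.482 * (I - (s3 - 1) * μ) ≤ PI)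
    (hkey : (Λ - 1) * (0.175 - 1.485 * δ) ≤ 0.00007 * δ + (0.111252 - 1.5 * δ) * (μ - 1)
      + 0.482 * (I - (s3 - 1)) - δ * (Λ - 1)) :
    pi6 + 2 * s3 - 3 + 0.098 * δ - 1.5 * |k| * δ ^ 2 + (Λ - 1) * (0.175 - 1.485 * δ)
      ≤ E1 + M1 + E2 := by
  have hμc : (0.111252 : ℝ) * (μ - 1) ≤ (2 * (s3 - 3 / 2) - 0.482 * (s3 - 1))
      * (μ - 1) := mul_le_mul_of_nonneg_right (by linarith) (by linarith)
  have hδc : (0.098 + 0.00007) * δ ≤ (1.5 * s3 - 2.5) * δ :=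
    mul_le_mul_of_nonneg_right (by linarith) hδ0
  linarith

theorem key_ab {δ lam nu I s3 : ℝ} (hδ0 : 0 ≤ δ) (hδ1 : δ ≤ 0.1415) (hs : 1.7320508 < s3)
    (hnu0 : 0 ≤ nu) (hnl : nu ≤ lam)
    (hI1 : (s3 - 1) + lam * (s3 - 1 + δ) / 2 ≤ I) :
    lam * (0.175 - 1.485 * δ) ≤ 0.00007 * δ + (0.111252 - 1.5 * δ) * nu
      + 0.482 * (I - (s3 - 1)) - δ * lam := by
  have q2 : lam * 0.7320508 ≤ lam * (s3 - 1) :=
    mul_le_mul_of_nonneg_left (by linarith) (by linarith)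
  have q1 : 0 ≤ lam - nu := by linarith
  -- lam * (0.001424 + 0.726 δ) + nu * (0.111252 - 1.5 δ) ≥ 0
  have h1 := mul_nonneg hδ0 q1
  have h2 := mul_nonneg hδ0 hnu0
  have h3 := mul_nonneg (by linarith : 0 ≤ 0.1415 - δ) hnu0
  linarith

theorem key_cd {δ lam nu I s3 : ℝ} (hδ0 : 0 ≤ δ) (hδ1 : δ ≤ 0.1415) (hs : 1.7320508 < s3)
    (hs2 : s3 < 1.7320509)
    (hnu0 : 0 ≤ nu) (hnl : nu ≤ lam)
    (b2 : (s3 / 2 - 1 / 2) * lam ≤ s3 / 2 * nu)
    (hI1 : (s3 - 1) + (s3 - 1) * 3 / 4 * nu + (1 - s3 / 2) * (lam - nu) ≤ I) :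
    lam * (0.175 - 1.485 * δ) ≤ 0.00007 * δ + (0.111252 - 1.5 * δ) * nu
      + 0.482 * (I - (s3 - 1)) - δ * lam := by
  have q5 : 0 ≤ lam := by linarith
  have q2 : nu * 0.7320508 ≤ nu * (s3 - 1) :=
    mul_le_mul_of_nonneg_left (by linarith) (by linarith)
  have q3 : 0.1339745 * (lam - nu) ≤ (1 - s3 / 2) * (lam - nu) :=
    mul_le_mul_of_nonneg_right (by linarith) (by linarith)
  have q4 : 0.42264 * lam ≤ nu := by
    have h1 : 0.3660254 * lam ≤ (s3 / 2 - 1 / 2) * lam := 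
      mul_le_mul_of_nonneg_right (by linarith) q5
    have h2 : s3 / 2 * nu ≤ 0.86602545 * nu := mul_le_mul_of_nonneg_right (by linarith) hnu0
    linarith
  have h1 := mul_nonneg hδ0 (by linarith : 0 ≤ nu - 0.42264 * lam)
  have h2 := mul_nonneg (by linarith : 0 ≤ 0.1415 - δ) (by linarith : 0 ≤ nu - 0.42264 * lam)
  have h3 := mul_nonneg (by linarith : 0 ≤ 0.1415 - δ) q5
  have h4 := mul_nonneg hδ0 q5
  linarith

theorem side_key {P : ℝ → ℝ} {δ Λ : ℝ} (hδ0 : 0 ≤ δ) (hδ1 : δ ≤ 0.1415)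
    (hPc : ContinuousOn P (Icc 0 1)) (hPcc : ConcaveOn ℝ (Icc 0 1) P)
    (hμ1 : 1 ≤ P (1 / 2)) (hμΛ : P (1 / 2) ≤ Λ)
    (b1 : P (1 / 2) + (Real.sqrt 3 - 1) * (Λ - P (1 / 2)) + 1
      ≤ P (1 - Real.sqrt 3 / 2) + P (Real.sqrt 3 / 2))
    (b2 : (Real.sqrt 3 / 2 - 1 / 2) * (Λ - 1) ≤ Real.sqrt 3 / 2 * (P (1 / 2) - 1)) :
    (Λ - 1) * (0.175 - 1.485 * δ) ≤ 0.00007 * δ + (0.111252 - 1.5 * δ) * (P (1 / 2) - 1)
      + 0.482 * ((∫ x in (1 - Real.sqrt 3 / 2)..(Real.sqrt 3 / 2), P x) - (Real.sqrt 3 - 1))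
      - δ * (Λ - 1) := by
  have s3l := sqrt3_lo
  have s3h := sqrt3_hi
  have h33 : Real.sqrt 3 ^ 2 = 3 := Real.sq_sqrt (by norm_num)
  have o1 : (0:ℝ) ≤ 1 - Real.sqrt 3 / 2 := by linarith
  have o2 : 1 - Real.sqrt 3 / 2 ≤ 1 / 2 := by linarith
  have o3 : 1 / 2 ≤ Real.sqrt 3 / 2 := by linarith
  have o4 : Real.sqrt 3 / 2 ≤ 1 := by linarith
  have i1 : IntervalIntegrable P volume (1 - Real.sqrt 3 / 2) (1 / 2) := by
    apply ContinuousOn.intervalIntegrable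
    rw [uIcc_of_le o2]
    exact hPc.mono (Icc_subset_Icc o1 (by norm_num))
  have i2 : IntervalIntegrable P volume (1 / 2) (Real.sqrt 3 / 2) := by
    apply ContinuousOn.intervalIntegrable
    rw [uIcc_of_le o3]
    exact hPc.mono (Icc_subset_Icc (by norm_num) o4)
  have t1 := trap o2 (hPc.mono (Icc_subset_Icc o1 (by norm_num)))
    (hPcc.subset (Icc_subset_Icc o1 (by norm_num)) (convex_Icc _ _))
  have t2 := trap o3 (hPc.mono (Icc_subset_Icc (by norm_num) o4))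
    (hPcc.subset (Icc_subset_Icc (by norm_num) o4) (convex_Icc _ _))
  rw [← intervalIntegral.integral_add_adjacent_intervals i1 i2]
  generalize (∫ x in (1 - Real.sqrt 3 / 2)..(1 / 2), P x) = I1 at t1 ⊢
  generalize (∫ x in (1 / 2)..(Real.sqrt 3 / 2), P x) = I2 at t2 ⊢
  generalize P (1 - Real.sqrt 3 / 2) = PL at b1 t1
  generalize P (Real.sqrt 3 / 2) = PR at b1 t2
  generalize P (1 / 2) = μ at *
  clear hPc hPcc i1 i2
  have w2 := mul_le_mul_of_nonneg_left b1 (by linarith : 0 ≤ (Real.sqrt 3 - 1) / 4)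
  have hsq : (Real.sqrt 3 - 1) * (Real.sqrt 3 - 1) = 4 - 2 * Real.sqrt 3 := by linarith
  have hsq2 : (Real.sqrt 3 - 1) * ((Real.sqrt 3 - 1) * (Λ - μ)) / 4
      = (1 - Real.sqrt 3 / 2) * (Λ - μ) := by
    calc (Real.sqrt 3 - 1) * ((Real.sqrt 3 - 1) * (Λ - μ)) / 4
        = ((Real.sqrt 3 - 1) * (Real.sqrt 3 - 1)) * (Λ - μ) / 4 := by ring
      _ = _ := by rw [hsq]; ring
  have hI1 : (Real.sqrt 3 - 1) + (Real.sqrt 3 - 1) * 3 / 4 * (μ - 1)
      + (1 - Real.sqrt 3 / 2) * ((Λ - 1) - (μ - 1)) ≤ I1 + I2 := by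
    linarith only [w2, hsq2, t1, t2]
  exact key_cd hδ0 hδ1 s3l s3h (by linarith) (by linarith) b2 hI1

theorem inside_key {P : ℝ → ℝ} {δ xs Λ : ℝ} (hδ0 : 0 ≤ δ) (hδ1 : δ ≤ 0.1415)
    (hPc : ContinuousOn P (Icc 0 1)) (hPcc : ConcaveOn ℝ (Icc 0 1) P)
    (hμ1 : 1 ≤ P (1 / 2)) (hμΛ : P (1 / 2) ≤ Λ)
    (hPl : 1 ≤ P (1 - Real.sqrt 3 / 2)) (hPr : 1 ≤ P (Real.sqrt 3 / 2))
    (hx1 : xs ≤ Real.sqrt 3 / 2) (hx2 : 1 - Real.sqrt 3 / 2 ≤ xs - δ)
    (v1 : P (xs - δ) = Λ) (v2 : P xs = Λ) :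
    (Λ - 1) * (0.175 - 1.485 * δ) ≤ 0.00007 * δ + (0.111252 - 1.5 * δ) * (P (1 / 2) - 1)
      + 0.482 * ((∫ x in (1 - Real.sqrt 3 / 2)..(Real.sqrt 3 / 2), P x) - (Real.sqrt 3 - 1))
      - δ * (Λ - 1) := by
  have s3l := sqrt3_lo
  have s3h := sqrt3_hi
  have o1 : (0:ℝ) ≤ 1 - Real.sqrt 3 / 2 := by linarith
  have o4 : Real.sqrt 3 / 2 ≤ 1 := by linarith
  have o5 : xs - δ ≤ xs := by linarith
  have hPt : ∀ u v : ℝ, 0 ≤ u → u ≤ v → v ≤ 1 →
      IntervalIntegrable P volume u v ∧ (v - u) * (P u + P v) / 2 ≤ ∫ x in u..v, P x := by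
    intro u v hu huv hv
    refine ⟨?_, trap huv (hPc.mono (Icc_subset_Icc hu hv)) (hPcc.subset (Icc_subset_Icc hu hv)
      (convex_Icc _ _))⟩
    apply ContinuousOn.intervalIntegrable
    rw [uIcc_of_le huv]
    exact hPc.mono (Icc_subset_Icc hu hv)
  obtain ⟨i1, t1⟩ := hPt (1 - Real.sqrt 3 / 2) (xs - δ) o1 hx2 (by linarith)
  obtain ⟨i2, t2⟩ := hPt (xs - δ) xs (by linarith) o5 (by linarith)
  obtain ⟨i3, t3⟩ := hPt xs (Real.sqrt 3 / 2) (by linarith) hx1 o4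
  rw [← intervalIntegral.integral_add_adjacent_intervals (i1.trans i2) i3,
    ← intervalIntegral.integral_add_adjacent_intervals i1 i2]
  rw [v1] at t1 t2
  rw [v2] at t2 t3
  generalize (∫ x in (1 - Real.sqrt 3 / 2)..(xs - δ), P x) = I1 at t1 ⊢
  generalize (∫ x in (xs - δ)..xs, P x) = I2 at t2 ⊢
  generalize (∫ x in xs..(Real.sqrt 3 / 2), P x) = I3 at t3 ⊢
  generalize P (1 - Real.sqrt 3 / 2) = PL at hPl t1
  generalize P (Real.sqrt 3 / 2) = PR at hPr t3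
  generalize P (1 / 2) = μ at *
  clear hPc hPcc i1 i2 i3 hPt v1 v2
  have w1 := mul_le_mul_of_nonneg_left hPl (by linarith : 0 ≤ xs - δ - (1 - Real.sqrt 3 / 2))
  have w2 := mul_le_mul_of_nonneg_left hPr (by linarith : 0 ≤ Real.sqrt 3 / 2 - xs)
  have hI1 : (Real.sqrt 3 - 1) + (Λ - 1) * (Real.sqrt 3 - 1 + δ) / 2 ≤ I1 + I2 + I3 := by
    linarith only [w1, w2, t1, t2, t3]
  exact key_ab hδ0 hδ1 s3l (by linarith) (by linarith) hI1

theorem right_key {P : ℝ → ℝ} {Λ x : ℝ} (hPcc : ConcaveOn ℝ (Icc 0 1) P)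
    (hμΛ : P (1 / 2) ≤ Λ) (hμ1 : 1 ≤ P (1 / 2)) 
    (hPl : 1 ≤ P (1 - Real.sqrt 3 / 2)) (hPr : Real.sqrt 3 / 2 ≤ x ∨ P (Real.sqrt 3 / 2) = Λ)
    (hx0 : 1 / 2 ≤ x) (hx1 : x ≤ 1) (v1 : P x = Λ) :
    (P (1 / 2) + (Real.sqrt 3 - 1) * (Λ - P (1 / 2)) ≤ P (Real.sqrt 3 / 2)) ∧
    ((Real.sqrt 3 / 2 - 1 / 2) * (Λ - 1) ≤ Real.sqrt 3 / 2 * (P (1 / 2) - 1)) := by
  have s3l := sqrt3_lo
  have s3h := sqrt3_hi
  constructor
  · rcases hPr with h5 | h5
    · have := conc3 hPcc (by norm_num : (0:ℝ) ≤ 1 / 2)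
        (by linarith : 1 / 2 ≤ Real.sqrt 3 / 2) h5 hx1
      rw [v1] at this
      generalize P (1 / 2) = μ at *
      generalize P (Real.sqrt 3 / 2) = PR at *
      clear hPcc
      have w : (Real.sqrt 3 / 2 - 1 / 2) * (Λ - μ) ≤ (x - 1 / 2) * (PR - μ) := by
        linarith only [this]
      have w0 : 0 ≤ (Real.sqrt 3 / 2 - 1 / 2) * (Λ - μ) :=
        mul_nonneg (by linarith) (by linarith)
      have w1 : 0 ≤ PR - μ := by
        by_contra hneg
        push Not at hneg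
        have : (x - 1 / 2) * (PR - μ) ≤ 0 :=
          mul_nonpos_of_nonneg_of_nonpos (by linarith) hneg.le
        rcases eq_or_lt_of_le hx0 with h6 | h6
        · linarith
        · have : (x - 1 / 2) * (PR - μ) < 0 := mul_neg_of_pos_of_neg (by linarith) hneg
          linarith
      have w2 := mul_nonneg (by linarith : 0 ≤ 1 - x) w1
      linarith only [w, w2]
    · rw [h5]
      have w2 := mul_nonneg (by linarith : 0 ≤ 2 - Real.sqrt 3)
        (by linarith : 0 ≤ Λ - P (1 / 2))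
      linarith only [w2]
  · have := conc3 hPcc (by linarith : 0 ≤ 1 - Real.sqrt 3 / 2)
        (by linarith : 1 - Real.sqrt 3 / 2 ≤ 1 / 2) hx0 hx1
    rw [v1] at this
    have w2 := mul_le_mul_of_nonneg_left hPl (by linarith : 0 ≤ x - 1 / 2)
    have w4 := mul_nonneg (by linarith : 0 ≤ 1 - x) (by linarith : 0 ≤ P (1 / 2) - 1)
    linarith only [this, w2, w4]

theorem left_key {P : ℝ → ℝ} {Λ x : ℝ} (hPcc : ConcaveOn ℝ (Icc 0 1) P)
    (hμΛ : P (1 / 2) ≤ Λ) (hμ1 : 1 ≤ P (1 / 2)) 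
    (hPr : 1 ≤ P (Real.sqrt 3 / 2))
    (hPl : x ≤ 1 - Real.sqrt 3 / 2 ∨ P (1 - Real.sqrt 3 / 2) = Λ)
    (hx0 : 0 ≤ x) (hx1 : x ≤ 1 / 2) (v1 : P x = Λ) :
    (P (1 / 2) + (Real.sqrt 3 - 1) * (Λ - P (1 / 2)) ≤ P (1 - Real.sqrt 3 / 2)) ∧
    ((Real.sqrt 3 / 2 - 1 / 2) * (Λ - 1) ≤ Real.sqrt 3 / 2 * (P (1 / 2) - 1)) := by
  have hrc : ConcaveOn ℝ (Icc 0 1) (fun t => P (1 - t)) := by
    refine ⟨convex_Icc _ _, ?_⟩
    intro x hx y hy a b ha hb hab
    have hx' : 1 - x ∈ Icc (0 : ℝ) 1 := ⟨by linarith [hx.2], by linarith [hx.1]⟩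
    have hy' : 1 - y ∈ Icc (0 : ℝ) 1 := ⟨by linarith [hy.2], by linarith [hy.1]⟩
    have := hPcc.2 hx' hy' ha hb hab
    simp only [smul_eq_mul] at this ⊢
    have e : 1 - (a * x + b * y) = a * (1 - x) + b * (1 - y) := by
      have : b = 1 - a := by linarith
      rw [this]; ring
    rw [e]
    exact this
  have e1 : (1:ℝ) - 1 / 2 = 1 / 2 := by norm_num
  have h := right_key (P := fun t => P (1 - t)) (Λ := Λ) (x := 1 - x) hrc
    (by simp only [e1]; exact hμΛ) (by simp only [e1]; exact hμ1)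
    (by simp only [sub_sub_cancel]; exact hPr)
    (by
      rcases hPl with h | h
      · left; linarith
      · right; exact h)
    (by linarith) (by linarith) (by simp only [sub_sub_cancel]; exact v1)
  simp only [e1] at h
  exact h

theorem analysis (m xs k Λ y0 : ℝ) (F G : ℝ → ℝ) (hm : 1 ≤ m) (hm2 : m ≤ 1 + 0.1415)
    (hxs : xs ∈ Icc (0:ℝ) m)
    (hF : ContinuousOn F (Icc 0 m)) (hG : ContinuousOn G (Icc 0 m))
    (hF' : ConcaveOn ℝ (Icc 0 m) F) (hG' : ConvexOn ℝ (Icc 0 m) G)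
    (hFm : ∀ x ∈ Icc (0:ℝ) m, F x ≤ F xs + k * (x - xs))
    (hGm : ∀ x ∈ Icc (0:ℝ) m, G xs + k * (x - xs) ≤ G x)
    (hΛ : F xs - G xs = Λ)
    (h0F : y0 ≤ F 0) (h0G : G 0 ≤ y0) (hmF : y0 ≤ F m) (hmG : G m ≤ y0)
    (hNE : ∀ s ∈ Icc (0:ℝ) (Real.pi / 6), ∃ a ∈ Icc (0:ℝ) (m - 1),
      Real.sin s + Real.sin (Real.pi / 3 - s) ≤
        F (a + Real.cos s) - G (a + Real.cos (Real.pi / 3 - s)))
    (hSE : ∀ s ∈ Icc (0:ℝ) (Real.pi / 6), ∃ a ∈ Icc (0:ℝ) (m - 1),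
      Real.sin s + Real.sin (Real.pi / 3 - s) ≤
        F (a + Real.cos (Real.pi / 3 - s)) - G (a + Real.cos s))
    (hNW : ∀ s ∈ Icc (0:ℝ) (Real.pi / 6), ∃ a ∈ Icc (0:ℝ) (m - 1),
      Real.sin s + Real.sin (Real.pi / 3 - s) ≤
        F (a + (1 - Real.cos s)) - G (a + (1 - Real.cos (Real.pi / 3 - s))))
    (hSW : ∀ s ∈ Icc (0:ℝ) (Real.pi / 6), ∃ a ∈ Icc (0:ℝ) (m - 1),
      Real.sin s + Real.sin (Real.pi / 3 - s) ≤
        F (a + (1 - Real.cos (Real.pi / 3 - s))) - G (a + (1 - Real.cos s)))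
    (htop : ∃ a ∈ Icc (0:ℝ) (m - 1), ∃ η : ℝ, η ≤ F a ∧ η ≤ F (a + 1) ∧
      G (a + 1 / 2) ≤ η - Real.sqrt 3 / 2)
    (hbot : ∃ a ∈ Icc (0:ℝ) (m - 1), ∃ η : ℝ, G a ≤ η ∧ G (a + 1) ≤ η ∧
      η + Real.sqrt 3 / 2 ≤ F (a + 1 / 2)) :
    Astar + 0.098 * (m - 1) - 1.5 * |k| * (m - 1) ^ 2 + (Λ - 1) * (0.175 - 1.485 * (m - 1))
      ≤ ∫ x in (0:ℝ)..m, (F x - G x) := by
  have s3l := sqrt3_lo
  have s3h := sqrt3_hi
  have h33 : Real.sqrt 3 ^ 2 = 3 := Real.sq_sqrt (by norm_num)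
  obtain ⟨δ, hδ⟩ : ∃ δ, δ = m - 1 := ⟨_, rfl⟩
  rw [← hδ] at hNE hSE hNW hSW htop hbot ⊢
  have hδ0 : 0 ≤ δ := by linarith
  have hδ1 : δ ≤ 0.1415 := by linarith
  have hmδ : 1 + δ = m := by linarith
  set h1 : ℝ → ℝ := fun x => F x - k * x with hh1
  set h2 : ℝ → ℝ := fun x => k * x - G x with hh2
  set L : ℝ → ℝ := fun x => F x - G x with hL
  have klin : ConvexOn ℝ (Icc 0 m) (fun x => k * x) := by
    refine ⟨convex_Icc _ _, ?_⟩
    intro x _ y _ a b _ _ _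
    simp only [smul_eq_mul]
    apply le_of_eq; ring
  have klin' : ConcaveOn ℝ (Icc 0 m) (fun x => k * x) := by
    refine ⟨convex_Icc _ _, ?_⟩
    intro x _ y _ a b _ _ _
    simp only [smul_eq_mul]
    apply le_of_eq; ring
  have c1 : ConcaveOn ℝ (Icc 0 m) h1 := hF'.sub klin
  have c2 : ConcaveOn ℝ (Icc 0 m) h2 := klin'.sub hG'
  have c3 : ConcaveOn ℝ (Icc 0 m) L := hF'.sub hG'
  have hLc : ContinuousOn L (Icc 0 m) := hF.sub hG
  have m1 : ∀ x ∈ Icc (0:ℝ) m, h1 x ≤ h1 xs := by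
    intro x hx; simp only [hh1]; linarith [hFm x hx]
  have m2 : ∀ x ∈ Icc (0:ℝ) m, h2 x ≤ h2 xs := by
    intro x hx; simp only [hh2]; linarith [hGm x hx]
  have m3 : ∀ x ∈ Icc (0:ℝ) m, L x ≤ L xs := by
    intro x hx; simp only [hL]; linarith [hGm x hx, hFm x hx]
  set P : ℝ → ℝ := win L xs δ with hPdef
  have hPsum : ∀ x, P x = win h1 xs δ x + win h2 xs δ x := by
    intro x; simp only [hPdef, win, hL, hh1, hh2]; ring
  have hPc : ContinuousOn P (Icc 0 1) := win_cont hLc hxs hδ0 hmδ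
  have hPcc : ConcaveOn ℝ (Icc 0 1) P := win_concave c3 hxs m3 hδ0 hmδ
  have hPle : ∀ x : ℝ, 0 ≤ x → x ≤ 1 → P x ≤ Λ := by
    intro x hx hx1
    rw [← hΛ]
    exact win_le hxs m3 hδ0 hx (by linarith)
  have hPint := win_integral hLc hxs m3 hδ0 (by linarith) hmδ
  have hLxs : L xs = Λ := hΛ
  rw [hLxs] at hPint
  -- evaluation lemmas
  have evF : ∀ x a : ℝ, 0 ≤ x → x ≤ 1 → 0 ≤ a → a ≤ δ →
      F (a + x) ≤ win h1 xs δ x + k * (x + a) := by
    intro x a hx hx1 ha ha1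
    have := le_win (δ := δ) c1 hxs m1 hx (by linarith) ha ha1
    simp only [hh1] at this ⊢
    rw [add_comm a x]
    linarith
  have evG : ∀ x a : ℝ, 0 ≤ x → x ≤ 1 → 0 ≤ a → a ≤ δ →
      - G (a + x) ≤ win h2 xs δ x - k * (x + a) := by
    intro x a hx hx1 ha ha1
    have := le_win (δ := δ) c2 hxs m2 hx (by linarith) ha ha1
    simp only [hh2] at this ⊢
    rw [add_comm a x]
    linarith
  have hpi := Real.pi_pos
  have h4 : ∀ s ∈ Icc (0:ℝ) (Real.pi / 6), 4 * (Real.sin s + Real.sin (Real.pi / 3 - s))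
      ≤ P (Real.cos s) + P (1 - Real.cos s) + P (Real.cos (Real.pi / 3 - s))
        + P (1 - Real.cos (Real.pi / 3 - s)) := by
    intro s hs
    have hu := u_mem hs
    have hcm := c_mem hs
    obtain ⟨a1, ha1, e1⟩ := hNE s hs
    obtain ⟨a2, ha2, e2⟩ := hNW s hs
    obtain ⟨a3, ha3, e3⟩ := hSE s hs
    obtain ⟨a4, ha4, e4⟩ := hSW s hs
    obtain ⟨u0, u1⟩ := hu
    obtain ⟨v0, v1⟩ := hcm
    have p1 := evF (Real.cos s) a1 (by linarith) v1 ha1.1 ha1.2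
    have p2 := evG (Real.cos (Real.pi / 3 - s)) a1 (by linarith) (by linarith) ha1.1 ha1.2
    have p3 := evF (1 - Real.cos s) a2 (by linarith) (by linarith) ha2.1 ha2.2
    have p4 := evG (1 - Real.cos (Real.pi / 3 - s)) a2 (by linarith) (by linarith) ha2.1 ha2.2
    have p5 := evF (Real.cos (Real.pi / 3 - s)) a3 (by linarith) (by linarith) ha3.1 ha3.2
    have p6 := evG (Real.cos s) a3 (by linarith) (by linarith) ha3.1 ha3.2
    have p7 := evF (1 - Real.cos (Real.pi / 3 - s)) a4 (by linarith) (by linarith) ha4.1 ha4.2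
    have p8 := evG (1 - Real.cos s) a4 (by linarith) (by linarith) ha4.1 ha4.2
    rw [hPsum, hPsum, hPsum, hPsum]
    linarith
  have hlow := int_lower hPc hPcc h4
  -- the values at the inner ends
  have e36 : Real.pi / 3 - Real.pi / 6 = Real.pi / 6 := by ring
  have hPr : 1 ≤ P (Real.sqrt 3 / 2) := by
    obtain ⟨a, ha, e⟩ := hNE (Real.pi / 6) ⟨by linarith, le_rfl⟩
    rw [e36, Real.sin_pi_div_six, Real.cos_pi_div_six] at e
    have p1 := evF (Real.sqrt 3 / 2) a (by linarith) (by linarith) ha.1 ha.2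
    have p2 := evG (Real.sqrt 3 / 2) a (by linarith) (by linarith) ha.1 ha.2
    rw [hPsum]
    linarith
  have hPl : 1 ≤ P (1 - Real.sqrt 3 / 2) := by
    obtain ⟨a, ha, e⟩ := hNW (Real.pi / 6) ⟨by linarith, le_rfl⟩
    rw [e36, Real.sin_pi_div_six, Real.cos_pi_div_six] at e
    have p1 := evF (1 - Real.sqrt 3 / 2) a (by linarith) (by linarith) ha.1 ha.2
    have p2 := evG (1 - Real.sqrt 3 / 2) a (by linarith) (by linarith) ha.1 ha.2
    rw [hPsum]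
    linarith
  obtain ⟨μ, hμ⟩ : ∃ μ, μ = P (1 / 2) := ⟨_, rfl⟩
  have hμΛ : μ ≤ Λ := by rw [hμ]; exact hPle _ (by norm_num) (by norm_num)
  have hμ1 : 1 ≤ μ := by
    have := conc3 hPcc (by linarith : 0 ≤ 1 - Real.sqrt 3 / 2)
      (by linarith : 1 - Real.sqrt 3 / 2 ≤ 1 / 2) (by linarith : 1 / 2 ≤ Real.sqrt 3 / 2)
      (by linarith : Real.sqrt 3 / 2 ≤ 1)
    rw [← hμ] at this
    have g : (Real.sqrt 3 - 1) * 1 ≤ (Real.sqrt 3 - 1) * μ := by
      have g1 := mul_le_mul_of_nonneg_left hPl (by linarith : 0 ≤ Real.sqrt 3 / 2 - 1 / 2)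
      have g2 := mul_le_mul_of_nonneg_left hPr (by linarith : 0 ≤ Real.sqrt 3 / 2 - 1 / 2)
      linarith
    exact le_of_mul_le_mul_left g (by linarith)
  -- D bound and ends
  have hends : 1.5 * δ * (Real.sqrt 3 - μ - |k| * δ) ≤
      (∫ x in (0:ℝ)..δ, L x) + ∫ x in (1:ℝ)..m, L x := by
    obtain ⟨a, ha, η, t1, t2, t3⟩ := htop
    obtain ⟨a', ha', η', b1, b2, b3⟩ := hbot
    have p1 := evF (1 / 2) a' (by norm_num) (by norm_num) ha'.1 ha'.2
    have p2 := evG (1 / 2) a (by norm_num) (by norm_num) ha.1 ha.2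
    have p3 : P (1 / 2) = win h1 xs δ (1 / 2) + win h2 xs δ (1 / 2) := hPsum _
    have hk : k * (a' - a) ≤ |k| * δ := by
      calc k * (a' - a) ≤ |k * (a' - a)| := le_abs_self _
        _ = |k| * |a' - a| := abs_mul _ _
        _ ≤ |k| * δ := by
          apply mul_le_mul_of_nonneg_left _ (abs_nonneg k)
          rw [abs_le]
          constructor <;> linarith [ha.1, ha.2, ha'.1, ha'.2]
    have hD : Real.sqrt 3 - μ - |k| * δ ≤ η - η' := by
      rw [hμ, p3]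
      linarith
    have hc' : ContinuousOn (fun x => - G x) (Icc 0 m) := hG.neg
    have hcc' : ConcaveOn ℝ (Icc 0 m) (fun x => - G x) := hG'.neg
    have q1 := ends_lemma hm (by linarith) hF hF' h0F hmF (by rw [← hδ]; exact ha) t1 t2
    have q2 := ends_lemma (y := -y0) (η := -η') hm (by linarith) hc' hcc' (by linarith)
      (by linarith) (by rw [← hδ]; exact ha') (by linarith) (by linarith)
    rw [← hδ] at q1 q2
    have hFi : ∀ u v : ℝ, 0 ≤ u → u ≤ v → v ≤ m → IntervalIntegrable F volume u v := by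
      intro u v hu huv hv
      apply ContinuousOn.intervalIntegrable
      rw [uIcc_of_le huv]
      exact hF.mono (Icc_subset_Icc hu hv)
    have hGi : ∀ u v : ℝ, 0 ≤ u → u ≤ v → v ≤ m →
        IntervalIntegrable (fun x => - G x) volume u v := by
      intro u v hu huv hv
      apply ContinuousOn.intervalIntegrable
      rw [uIcc_of_le huv]
      exact hc'.mono (Icc_subset_Icc hu hv)
    have r1 : ∫ x in (0:ℝ)..δ, L x = (∫ x in (0:ℝ)..δ, F x) + ∫ x in (0:ℝ)..δ, - G x := by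
      rw [← intervalIntegral.integral_add (hFi 0 δ le_rfl hδ0 (by linarith))
        (hGi 0 δ le_rfl hδ0 (by linarith))]
      apply intervalIntegral.integral_congr
      intro x _; simp only [hL]; ring
    have r2 : ∫ x in (1:ℝ)..m, L x = (∫ x in (1:ℝ)..m, F x) + ∫ x in (1:ℝ)..m, - G x := by
      rw [← intervalIntegral.integral_add (hFi 1 m (by norm_num) hm le_rfl)
        (hGi 1 m (by norm_num) hm le_rfl)]
      apply intervalIntegral.integral_congr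
      intro x _; simp only [hL]; ring
    rw [r1, r2]
    have := mul_le_mul_of_nonneg_left hD (by linarith : 0 ≤ 1.5 * δ)
    linarith
  -- decomposition of the integral
  have hLi : ∀ u v : ℝ, 0 ≤ u → u ≤ v → v ≤ m → IntervalIntegrable L volume u v := by
    intro u v hu huv hv
    apply ContinuousOn.intervalIntegrable
    rw [uIcc_of_le huv]
    exact hLc.mono (Icc_subset_Icc hu hv)
  have hdec : ∫ x in (0:ℝ)..m, L x
      = (∫ x in (0:ℝ)..δ, L x) + (∫ x in δ..1, L x) + ∫ x in (1:ℝ)..m, L x := by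
    rw [intervalIntegral.integral_add_adjacent_intervals (hLi 0 δ le_rfl hδ0 (by linarith))
      (hLi δ 1 hδ0 (by linarith) hm), intervalIntegral.integral_add_adjacent_intervals
      (hLi 0 1 le_rfl (by norm_num) hm) (hLi 1 m (by norm_num) hm le_rfl)]
  -- bound on the inner integral
  rw [← hμ] at hlow
  have hkey : (Λ - 1) * (0.175 - 1.485 * δ) ≤ 0.00007 * δ + (0.111252 - 1.5 * δ) * (μ - 1)
      + 0.482 * ((∫ x in (1 - Real.sqrt 3 / 2)..(Real.sqrt 3 / 2), P x) - (Real.sqrt 3 - 1))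
      - δ * (Λ - 1) := by
    have hplat : ∀ x : ℝ, x ≤ xs → xs ≤ x + δ → P x = Λ := by
      intro x hx1 hx2
      rw [hPdef, win_plateau hx1 hx2, hLxs]
    have hxs0 := hxs.1
    have hxs1 := hxs.2
    clear_value P
    clear hdec hLi hends h4 evF evG hPint hlow hLxs hPsum m1 m2 m3 c1 c2 c3 hLc klin klin'
      htop hbot hNE hSE hNW hSW hF hG hF' hG' hFm hGm h0F h0G hmF hmG e36 hpi
    rw [hμ] at hμΛ hμ1 ⊢
    rcases le_or_gt xs (Real.sqrt 3 / 2) with hx1 | hx1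
    · rcases le_or_gt (1 - Real.sqrt 3 / 2) (xs - δ) with hx2 | hx2
      · exact inside_key hδ0 hδ1 hPc hPcc hμ1 hμΛ hPl hPr hx1 hx2
          (hplat _ (by linarith) (by linarith)) (hplat _ le_rfl (by linarith))
      · obtain ⟨b1, b2⟩ := left_key (x := xs) hPcc hμΛ hμ1 hPr (by
          rcases le_or_gt xs (1 - Real.sqrt 3 / 2) with h5 | h5
          · left; exact h5
          · right; exact hplat _ h5.le (by linarith)) hxs0 (by linarith)
          (hplat _ le_rfl (by linarith))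
        exact side_key hδ0 hδ1 hPc hPcc hμ1 hμΛ (by linarith) b2
    · obtain ⟨b1, b2⟩ := right_key (x := xs - δ) hPcc hμΛ hμ1 hPl (by
          rcases le_or_gt (Real.sqrt 3 / 2) (xs - δ) with h5 | h5
          · left; exact h5
          · right; exact hplat _ hx1.le (by linarith)) (by linarith) (by linarith)
          (hplat _ (by linarith) (by linarith))
      exact side_key hδ0 hδ1 hPc hPcc hμ1 hμΛ (by linarith) b2
  rw [hdec]
  unfold Astar
  have hfin := fin_comb (E1 := ∫ x in (0:ℝ)..δ, L x) (E2 := ∫ x in (1:ℝ)..m, L x)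
    (M1 := ∫ x in δ..1, L x) hδ0 s3l hμ1 hends hPint hlow hkey
  exact hfin

end Pool.Agent.V7H8.Cover
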