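import Pool.Agent.V7H8.CoverBasic

set_option autoImplicit false
open MeasureTheory Set

namespace Pool.Agent.V7H8.Cover

private lemma aux1 {m k Λ : ℝ} (hL : 0 ≤ Λ)
    (hk : m ^ 2 * (1 + k ^ 2) ≤ Λ ^ 2) : m ≤ Λ := by
  by_contra hcon
  push Not at hcon
  have h1 : Λ ^ 2 < m ^ 2 := pow_lt_pow_left₀ hcon hL (by norm_num)
  have h2 : 0 ≤ m ^ 2 * k ^ 2 := mul_nonneg (sq_nonneg m) (sq_nonneg k)
  linarith [mul_add (m ^ 2) 1 (k ^ 2)]

private lemma aux2 {m k Λ : ℝ} (hm : 1 ≤ m)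
    (hk : m ^ 2 * (1 + k ^ 2) ≤ Λ ^ 2) : k ^ 2 ≤ Λ ^ 2 := by
  have h1 : (1 : ℝ) ≤ m ^ 2 := one_le_pow₀ hm
  have h2 : 0 ≤ (m ^ 2 - 1) * k ^ 2 := mul_nonneg (by linarith) (sq_nonneg k)
  have h3 : m ^ 2 * (1 + k ^ 2) = m ^ 2 + ((m ^ 2 - 1) * k ^ 2 + k ^ 2) := by ring
  linarith [sq_nonneg m]

private lemma aux3 {a l d : ℝ} (h : a ≤ 1 + l) : 1.5 * a * d ^ 2 ≤ 1.5 * (1 + l) * d ^ 2 :=
  mul_le_mul_of_nonneg_right (by linarith) (sq_nonneg d)

private lemma aux4 {d : ℝ} (hd0 : 0 ≤ d) (c1 : d ≤ 0.0587) :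
    0 ≤ 0.175 - 1.485 * d - 1.5 * d ^ 2 := by nlinarith

private lemma aux6 {s m : ℝ} (hs : 1.73205 ≤ s) (hm : 1.1415 ≤ m) :
    0.9877007 ≤ m * (1 + s / 2) / 2 := by
  have h : 1.1415 * (1 + 1.73205 / 2) ≤ m * (1 + s / 2) :=
    mul_le_mul hm (by linarith) (by norm_num) (by linarith)
  linarith

private lemma aux7 {s m : ℝ} (hs : 1.73205 ≤ s) (hm : 1.1415 ≤ m) :
    0.9877007 ≤ (s * m + s * m) / 4 := by
  have h : 1.73205 * 1.1415 ≤ s * m :=
    mul_le_mul hs hm (by norm_num) (by linarith)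
  linarith

private lemma aux8 {d l k : ℝ} (h : (1 + d) ^ 2 * (1 + k ^ 2) ≤ (1 + l) ^ 2) :
    (1 + d) ^ 2 * k ^ 2 ≤ (l - d) * (2 + l + d) := by
  have e : (1 + l) ^ 2 - (1 + d) ^ 2 * (1 + k ^ 2)
    = (l - d) * (2 + l + d) - (1 + d) ^ 2 * k ^ 2 := by ring
  linarith

private lemma aux9 {d : ℝ} (h : 0.0587 ≤ d) : (1.12 : ℝ) ≤ (1 + d) ^ 2 := by
  have : (1.0587 : ℝ) ^ 2 ≤ (1 + d) ^ 2 := pow_le_pow_left₀ (by norm_num) (by linarith) 2
  linarith [show (1.12 : ℝ) ≤ (1.0587 : ℝ) ^ 2 by norm_num]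

private lemma aux10 {a c k R : ℝ} (h1 : a * k ^ 2 ≤ R) (h2 : c ≤ a) : c * k ^ 2 ≤ R :=
  le_trans (mul_le_mul_of_nonneg_right h2 (sq_nonneg k)) h1

private lemma aux11 {k t : ℝ} (h : k ^ 2 ≤ t) : |k| ≤ 0.25 + t := by
  have h1 := sq_abs k
  have h2 := sq_nonneg (|k| - 1 / 2)
  have h3 : (|k| - 1 / 2) ^ 2 = |k| ^ 2 - |k| + 1 / 4 := by ring
  linarith

private lemma aux12 {a b d : ℝ} (h : a ≤ b) : 1.5 * a * d ^ 2 ≤ 1.5 * b * d ^ 2 :=
  mul_le_mul_of_nonneg_right (by linarith) (sq_nonneg d)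

private lemma aux13 {d : ℝ} (hd0 : 0 ≤ d) (h : d ≤ 0.1415) :
    0 ≤ 0.098 * d + d * (0.175 - 1.485 * d) - 1.5 * (0.25 + 2.14 * (d - d)) * d ^ 2 := by
  have e : 0.098 * d + d * (0.175 - 1.485 * d) - 1.5 * (0.25 + 2.14 * (d - d)) * d ^ 2
    = d * (0.273 - 1.86 * d) := by ring
  rw [e]
  exact mul_nonneg hd0 (by linarith)

private lemma aux14 {d : ℝ} (h0 : 0 ≤ d) (h : d ≤ 0.1415) :
    0 ≤ 0.08148 - 0.997666 * d
      + 1.560774 * d ^ 2 + 10.6251 * d ^ 3 - 10.6251 * (d - 0.1346) ^ 2 * (d + 0.4) := by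
  nlinarith [sq_nonneg (d - 0.1346)]

private lemma aux15 {d : ℝ} (h1 : 0.0587 ≤ d) (h2 : d ≤ 0.1415) :
    1.4656 - 2.31 * d ≤ 2 * (1 + d) := by linarith

private lemma aux16 {d s : ℝ} (hs : 1.73205 ≤ s) (h1 : 0.0587 ≤ d) :
    0.9877007 ≤ (1 + d) * (1 + s / 2) / 2 := by
  have h : 1.0587 * (1 + 1.73205 / 2) ≤ (1 + d) * (1 + s / 2) :=
    mul_le_mul (by linarith) (by linarith) (by norm_num) (by linarith)
  linarith [show (1.9754014 : ℝ) ≤ 1.0587 * (1 + 1.73205 / 2) by norm_num]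

private lemma aux17 {d s A : ℝ} (hs : 1.73205 ≤ s) (hA : A ≤ 0.9877007) (h2 : d ≤ 0.1415) :
    4 * A - s * (1.4656 - 2.31 * d) ≤ 3.9508028 - 1.73205 * (1.4656 - 2.31 * d) := by
  have h : 1.73205 * (1.4656 - 2.31 * d) ≤ s * (1.4656 - 2.31 * d) :=
    mul_le_mul_of_nonneg_right hs (by linarith)
  linarith

private lemma aux18 {d : ℝ} (h1 : 0.0587 ≤ d) (h2 : d ≤ 0.1415) :
    (3.9508028 - 1.73205 * (1.4656 - 2.31 * d)) ^ 2
      ≤ 4 * (1 + d) ^ 2 - (1.4656 - 2.31 * d) ^ 2 := by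
  nlinarith

/-- module H: numerical endgame -/
theorem endgame {m Λ k V : ℝ} (hm : 1 ≤ m) (hL : 0 ≤ Λ) (hk : m ^ 2 * (1 + k ^ 2) ≤ Λ ^ 2)
    (h1 : m ≤ 1 + 0.1415 → Astar + 0.098 * (m - 1) - 1.5 * |k| * (m - 1) ^ 2
      + (Λ - 1) * (0.175 - 1.485 * (m - 1)) ≤ V)
    (h2 : ∀ M : ℝ, 0 ≤ M → M ≤ Λ → M ≤ 2 * m → ∀ A : ℝ, A ≤ m * (1 + Real.sqrt 3 / 2) / 2 →
      A ≤ (Real.sqrt 3 * M + Real.sqrt (4 * m ^ 2 - M ^ 2)) / 4 → A ≤ V) :
    Astar ≤ V := by
  have hs0 : (1.73205 : ℝ) ≤ Real.sqrt 3 := by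
    apply Real.le_sqrt_of_sq_le; norm_num
  have hs1 : Real.sqrt 3 ≤ (1.7320509 : ℝ) := by
    rw [Real.sqrt_le_left (by norm_num)]; norm_num
  have hA0 : Astar ≤ (0.9877007 : ℝ) := by
    have := Real.pi_lt_d6
    unfold Astar; linarith
  have hmL : m ≤ Λ := aux1 hL hk
  obtain ⟨d, hd⟩ : ∃ d, d = m - 1 := ⟨_, rfl⟩
  obtain ⟨l, hl⟩ : ∃ l, l = Λ - 1 := ⟨_, rfl⟩
  have hm' : m = 1 + d := by linarith
  have hL' : Λ = 1 + l := by linarith
  have hd0 : 0 ≤ d := by linarith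
  have hdl : d ≤ l := by linarith
  by_cases c1 : d ≤ 0.0587
  · -- direct use of h1
    have hkL : |k| ≤ Λ := by
      exact abs_le_of_sq_le_sq (aux2 hm hk) hL
    have h := h1 (by linarith)
    rw [← hd, ← hl] at h
    have h3 : 1.5 * |k| * d ^ 2 ≤ 1.5 * (1 + l) * d ^ 2 := by
      rw [hL'] at hkL
      exact aux3 hkL
    have h4 : 0 ≤ d * (0.098 - 1.5 * d) := mul_nonneg hd0 (by linarith)
    have h5 : 0 ≤ l * (0.175 - 1.485 * d - 1.5 * d ^ 2) :=
      mul_nonneg (by linarith) (aux4 hd0 c1)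
    have e5 : d * (0.098 - 1.5 * d) + l * (0.175 - 1.485 * d - 1.5 * d ^ 2)
      = 0.098 * d - 1.5 * (1 + l) * d ^ 2 + l * (0.175 - 1.485 * d) := by ring
    linarith
  · push Not at c1
    by_cases c2 : 0.1415 ≤ d
    · -- h2 with M = m
      refine h2 m (by linarith) hmL (by linarith) Astar ?_ ?_
      · exact hA0.trans (aux6 hs0 (by linarith))
      · have h3 : Real.sqrt (4 * m ^ 2 - m ^ 2) = Real.sqrt 3 * m := by
          rw [show 4 * m ^ 2 - m ^ 2 = 3 * m ^ 2 by ring, Real.sqrt_mul (by norm_num),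
            Real.sqrt_sq (by linarith)]
        rw [h3]
        exact hA0.trans (aux7 hs0 (by linarith))
    · push Not at c2
      by_cases c3 : Λ ≤ 1.4656 - 2.31 * d
      · -- h1
        have h := h1 (by linarith)
        rw [← hd, ← hl] at h
        have hkk : k ^ 2 ≤ 2.14 * (l - d) := by
          have e1 : (1 + d) ^ 2 * k ^ 2 ≤ (l - d) * (2 + l + d) := by
            rw [hm', hL'] at hk
            exact aux8 hk
          have e2 : (1.12 : ℝ) ≤ (1 + d) ^ 2 := aux9 c1.le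
          have e3 : (l - d) * (2 + l + d) ≤ (l - d) * 2.3888 :=
            mul_le_mul_of_nonneg_left (by linarith) (by linarith)
          have e4 : 1.12 * k ^ 2 ≤ (l - d) * 2.3888 := aux10 (e1.trans e3) e2
          linarith
        have hka : |k| ≤ 0.25 + 2.14 * (l - d) := aux11 hkk
        have h3 : 1.5 * |k| * d ^ 2 ≤ 1.5 * (0.25 + 2.14 * (l - d)) * d ^ 2 := aux12 hka
        obtain ⟨U, hU⟩ : ∃ U : ℝ, U = 0.4656 - 2.31 * d := ⟨_, rfl⟩
        have hlU : l ≤ U := by linarith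
        have fd : 0 ≤ 0.098 * d + d * (0.175 - 1.485 * d) - 1.5 * (0.25 + 2.14 * (d - d)) * d ^ 2 :=
          aux13 hd0 c2.le
        have hdU : d ≤ 0.1407 := by linarith
        have fU : 0 ≤ 0.098 * d + U * (0.175 - 1.485 * d)
            - 1.5 * (0.25 + 2.14 * (U - d)) * d ^ 2 := by
          rw [hU]
          have e : 0.098 * d + (0.4656 - 2.31 * d) * (0.175 - 1.485 * d)
            - 1.5 * (0.25 + 2.14 * ((0.4656 - 2.31 * d) - d)) * d ^ 2
            = 10.6251 * (d - 0.1346) ^ 2 * (d + 0.4) + (0.08148 - 0.997666 * d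
              + 1.560774 * d ^ 2 + 10.6251 * d ^ 3 - 10.6251 * (d - 0.1346) ^ 2 * (d + 0.4)) := by
            ring
          rw [e]
          have e1 : 0 ≤ 10.6251 * (d - 0.1346) ^ 2 * (d + 0.4) := by positivity
          have e2 : 0 ≤ 0.08148 - 0.997666 * d
              + 1.560774 * d ^ 2 + 10.6251 * d ^ 3 - 10.6251 * (d - 0.1346) ^ 2 * (d + 0.4) :=
            aux14 hd0 c2.le
          linarith
        have key : 0 ≤ 0.098 * d + l * (0.175 - 1.485 * d)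
            - 1.5 * (0.25 + 2.14 * (l - d)) * d ^ 2 := by
          rcases eq_or_lt_of_le (le_trans hdl hlU) with he | hlt
          · have : l = d := by linarith
            rw [this]; exact fd
          · have e : (U - d) * (0.098 * d + l * (0.175 - 1.485 * d)
              - 1.5 * (0.25 + 2.14 * (l - d)) * d ^ 2)
              = (U - l) * (0.098 * d + d * (0.175 - 1.485 * d)
                - 1.5 * (0.25 + 2.14 * (d - d)) * d ^ 2)
              + (l - d) * (0.098 * d + U * (0.175 - 1.485 * d)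
                - 1.5 * (0.25 + 2.14 * (U - d)) * d ^ 2) := by ring
            have e2 : 0 ≤ (U - d) * (0.098 * d + l * (0.175 - 1.485 * d)
              - 1.5 * (0.25 + 2.14 * (l - d)) * d ^ 2) := by
              rw [e]
              exact add_nonneg (mul_nonneg (by linarith) fd) (mul_nonneg (by linarith) fU)
            exact nonneg_of_mul_nonneg_right e2 (by linarith)
        linarith
      · push Not at c3
        refine h2 (1.4656 - 2.31 * d) (by linarith) c3.le (by linarith) Astar ?_ ?_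
        · rw [hm']
          exact hA0.trans (aux16 hs0 c1.le)
        · have hq : 4 * Astar - Real.sqrt 3 * (1.4656 - 2.31 * d)
              ≤ 3.9508028 - 1.73205 * (1.4656 - 2.31 * d) := aux17 hs0 hA0 c2.le
          have hr : 3.9508028 - 1.73205 * (1.4656 - 2.31 * d)
              ≤ Real.sqrt (4 * m ^ 2 - (1.4656 - 2.31 * d) ^ 2) := by
            apply Real.le_sqrt_of_sq_le
            rw [hm']
            exact aux18 c1.le c2.le
          linarith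

end Pool.Agent.V7H8.Cover
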