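import Mathlib

set_option autoImplicit false
open MeasureTheory Set

namespace Pool.Agent.V7H8.Cover

/-- squared Euclidean distance in coordinates -/
def sq2 (p q : ℝ × ℝ) : ℝ := (p.1 - q.1) ^ 2 + (p.2 - q.2) ^ 2

/-- `K` contains a translate of every set of diameter one (coordinates). -/
def Cov (K : Set (ℝ × ℝ)) : Prop :=
  ∀ S : Set (ℝ × ℝ), (∀ p ∈ S, ∀ q ∈ S, sq2 p q ≤ 1) → (∃ p ∈ S, ∃ q ∈ S, sq2 p q = 1) →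
    ∃ v : ℝ × ℝ, ∀ p ∈ S, p + v ∈ K

/-- the constant -/
noncomputable def Astar : ℝ := Real.pi / 6 + 2 * Real.sqrt 3 - 3

/-- framed compact convex cover -/
structure Frame (K : Set (ℝ × ℝ)) (m Λ k xs : ℝ) : Prop where
  cpt : IsCompact K
  cvx : Convex ℝ K
  cov : Cov K
  proj : ∀ p ∈ K, 0 ≤ p.1 ∧ p.1 ≤ m
  ctc : ∃ y0 : ℝ, ((0 : ℝ), y0) ∈ K ∧ (m, y0) ∈ K
  ball : ∀ v : ℝ × ℝ, v.1 ^ 2 + v.2 ^ 2 ≤ m ^ 2 → ∃ p ∈ K, ∃ q ∈ K, q - p = v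
  chord : ∃ y1 y2 : ℝ, (xs, y1) ∈ K ∧ (xs, y2) ∈ K ∧ y2 - y1 = Λ
  line : ∀ p ∈ K, ∀ q ∈ K, q.2 - p.2 ≤ Λ + k * (q.1 - p.1)

end Pool.Agent.V7H8.Cover
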