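import Pool.Agent.V7H8.CoverBasic

/-!
Module A: the truncated square is a convex translation cover of area `Astar`.
-/

set_option autoImplicit false
open MeasureTheory Set

namespace Pool.Agent.V7H8.Cover

theorem le_of_sq_le_sq_real {a b : ℝ} (h : a ^ 2 ≤ b ^ 2) (hb : 0 ≤ b) : a ≤ b :=
  le_of_abs_le (abs_le_of_sq_le_sq' h hb |> fun h => abs_le.2 h)

/-- closed unit disc about `c` -/
def disc (c : ℝ × ℝ) : Set (ℝ × ℝ) := {x | sq2 x c ≤ 1}

theorem disc_convex (c : ℝ × ℝ) : Convex ℝ (disc c) := by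
  intro x hx y hy a b ha hb hab
  simp only [disc, mem_ofPred_eq, sq2] at hx hy ⊢
  simp only [Prod.fst_add, Prod.snd_add, Prod.smul_fst, Prod.smul_snd, smul_eq_mul]
  obtain rfl : b = 1 - a := by linarith
  have h1 := mul_le_mul_of_nonneg_left hx ha
  have h2 := mul_le_mul_of_nonneg_left hy hb
  have h3 := mul_nonneg (mul_nonneg ha hb) (sq_nonneg (x.1 - y.1))
  have h4 := mul_nonneg (mul_nonneg ha hb) (sq_nonneg (x.2 - y.2))
  nlinarith [h1, h2, h3, h4]

theorem disc_compact (c : ℝ × ℝ) : IsCompact (disc c) := by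
  have hcl : IsClosed (disc c) := by
    apply isClosed_le
    · unfold sq2; fun_prop
    · fun_prop
  refine IsCompact.of_isClosed_subset (isCompact_Icc (a := (c.1 - 1, c.2 - 1))
    (b := (c.1 + 1, c.2 + 1))) hcl ?_
  intro x hx
  simp only [disc, mem_ofPred_eq, sq2] at hx
  have h1 : (x.1 - c.1) ^ 2 ≤ 1 := by nlinarith [sq_nonneg (x.2 - c.2)]
  have h2 : (x.2 - c.2) ^ 2 ≤ 1 := by nlinarith [sq_nonneg (x.1 - c.1)]
  have h3 := abs_le.1 (abs_le_one_iff_mul_self_le_one.2 (by nlinarith : (x.1 - c.1) * (x.1 - c.1) ≤ 1))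
  have h4 := abs_le.1 (abs_le_one_iff_mul_self_le_one.2 (by nlinarith : (x.2 - c.2) * (x.2 - c.2) ≤ 1))
  constructor
  · constructor <;> simp <;> linarith
  · constructor <;> simp <;> linarith

/-- the step lemma by Helly's theorem -/
theorem step (S : Set (ℝ × ℝ)) (hS : ∀ p ∈ S, ∀ q ∈ S, sq2 p q ≤ 1) (u : ℝ × ℝ)
    (hu : u.1 ^ 2 + u.2 ^ 2 = 1) : ∃ a : ℝ × ℝ, ∀ s ∈ S, sq2 a s ≤ 1 ∧ sq2 (a + u) s ≤ 1 := by
  classical
  let F : (S × Bool) → Set (ℝ × ℝ) := fun i => if i.2 then disc (i.1.1 - u) else disc i.1.1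
  have hfr : Module.finrank ℝ (ℝ × ℝ) = 2 := by simp
  have hne : (⋂ i, F i).Nonempty := by
    apply Convex.helly_theorem_compact' (𝕜 := ℝ)
    · intro i; simp only [F]; split_ifs <;> exact disc_convex _
    · intro i; simp only [F]; split_ifs <;> exact disc_compact _
    · intro I hI
      rw [hfr] at hI
      have hsum : (I.filter (fun i => i.2 = true)).card + (I.filter (fun i => ¬ i.2 = true)).card
          = I.card := Finset.card_filter_add_card_filter_not _
      have hcase : (I.filter (fun i => i.2 = true)).card ≤ 1 ∨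
          (I.filter (fun i => ¬ i.2 = true)).card ≤ 1 := by omega
      by_cases hIe : I = ∅
      · subst hIe; simp
      obtain ⟨j0, hj0⟩ := Finset.nonempty_iff_ne_empty.2 hIe
      rcases hcase with hc | hc
      · have : ∃ i0 : S × Bool, ∀ i ∈ I, i.2 = true → i = i0 := by
          by_cases he : (I.filter (fun i => i.2 = true)) = ∅
          · refine ⟨j0, fun i hi h2 => ?_⟩
            have : i ∈ I.filter (fun i => i.2 = true) := Finset.mem_filter.2 ⟨hi, h2⟩
            rw [he] at this; simp at this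
          · obtain ⟨i0, hi0⟩ := Finset.nonempty_iff_ne_empty.2 he
            refine ⟨i0, fun i hi h2 => ?_⟩
            exact Finset.card_le_one.1 hc i (Finset.mem_filter.2 ⟨hi, h2⟩) i0 hi0
        obtain ⟨i0, hi0⟩ := this
        refine ⟨i0.1.1, ?_⟩
        simp only [mem_iInter]
        intro i hi
        simp only [F]
        split_ifs with h2
        · rw [hi0 i hi h2]
          simp only [disc, mem_ofPred_eq, sq2, Prod.fst_sub, Prod.snd_sub]
          nlinarith
        · exact hS _ i0.1.2 _ i.1.2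
      · have : ∃ i0 : S × Bool, ∀ i ∈ I, ¬ i.2 = true → i = i0 := by
          by_cases he : (I.filter (fun i => ¬ i.2 = true)) = ∅
          · refine ⟨j0, fun i hi h2 => ?_⟩
            have : i ∈ I.filter (fun i => ¬ i.2 = true) := Finset.mem_filter.2 ⟨hi, h2⟩
            rw [he] at this; simp at this
          · obtain ⟨i0, hi0⟩ := Finset.nonempty_iff_ne_empty.2 he
            refine ⟨i0, fun i hi h2 => ?_⟩
            exact Finset.card_le_one.1 hc i (Finset.mem_filter.2 ⟨hi, h2⟩) i0 hi0
        obtain ⟨i0, hi0⟩ := this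
        refine ⟨i0.1.1 - u, ?_⟩
        simp only [mem_iInter]
        intro i hi
        simp only [F]
        split_ifs with h2
        · have := hS _ i0.1.2 _ i.1.2
          simp only [disc, mem_ofPred_eq, sq2, Prod.fst_sub, Prod.snd_sub] at this ⊢
          nlinarith
        · rw [hi0 i hi h2]
          simp only [disc, mem_ofPred_eq, sq2, Prod.fst_sub, Prod.snd_sub]
          nlinarith
  obtain ⟨a, ha⟩ := hne
  rw [mem_iInter] at ha
  refine ⟨a, fun s hs => ⟨?_, ?_⟩⟩
  · have := ha (⟨s, hs⟩, false)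
    simpa [F, disc] using this
  · have := ha (⟨s, hs⟩, true)
    simp only [F, disc, if_true, mem_ofPred_eq, sq2, Prod.fst_sub, Prod.snd_sub] at this
    simp only [sq2, Prod.fst_add, Prod.snd_add]
    nlinarith

/-- the corner condition -/
def corner : Set (ℝ × ℝ) :=
  {p | ∃ u v : ℝ, u ^ 2 + v ^ 2 - Real.sqrt 3 * u * v ≤ 1 / 4 ∧ p.1 ≤ u ∧ p.2 ≤ v}

theorem corner_convex : Convex ℝ corner := by
  rintro x ⟨u1, v1, h1, hx1, hx2⟩ y ⟨u2, v2, h2, hy1, hy2⟩ a b ha hb hab
  refine ⟨a * u1 + b * u2, a * v1 + b * v2, ?_, ?_, ?_⟩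
  · obtain rfl : b = 1 - a := by linarith
    have h3 : Real.sqrt 3 ^ 2 = 3 := Real.sq_sqrt (by norm_num)
    have e1 := mul_le_mul_of_nonneg_left h1 ha
    have e2 := mul_le_mul_of_nonneg_left h2 hb
    have hq : 0 ≤ (u1 - u2) ^ 2 + (v1 - v2) ^ 2 - Real.sqrt 3 * (u1 - u2) * (v1 - v2) := by
      nlinarith [sq_nonneg ((u1 - u2) - Real.sqrt 3 / 2 * (v1 - v2)), sq_nonneg (v1 - v2)]
    have e3 := mul_nonneg (mul_nonneg ha hb) hq
    nlinarith [e1, e2, e3]
  · simp only [Prod.fst_add, Prod.smul_fst, smul_eq_mul]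
    nlinarith [mul_le_mul_of_nonneg_left hx1 ha, mul_le_mul_of_nonneg_left hy1 hb]
  · simp only [Prod.snd_add, Prod.smul_snd, smul_eq_mul]
    nlinarith [mul_le_mul_of_nonneg_left hx2 ha, mul_le_mul_of_nonneg_left hy2 hb]

/-- the main planar inequality: the corner at `(1,1)` -/
theorem corner_mem {x y s t : ℝ} (hx0 : 0 ≤ x) (hx1 : x ≤ 1) (_hy0 : 0 ≤ y) (hy1 : y ≤ 1)
    (h1 : x ^ 2 + (y - s) ^ 2 ≤ 1) (h2 : (x - t) ^ 2 + y ^ 2 ≤ 1) (h3 : s ^ 2 + t ^ 2 ≤ 1) :
    (x, y) ∈ corner := by
  have hr2 : Real.sqrt 3 ^ 2 = 3 := Real.sq_sqrt (by norm_num)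
  have hr0 : 0 < Real.sqrt 3 := Real.sqrt_pos.2 (by norm_num)
  set r := Real.sqrt 3 with hr
  by_cases hx : x ≤ r / 2
  · refine ⟨r / 2, 1, ?_, hx, hy1⟩
    rw [← hr]; nlinarith
  · push Not at hx
    set c := Real.sqrt (1 - x ^ 2) with hc
    have hc2 : c ^ 2 = 1 - x ^ 2 := Real.sq_sqrt (by nlinarith)
    have hc0 : 0 ≤ c := Real.sqrt_nonneg _
    refine ⟨x, (r * x + c) / 2, ?_, le_refl _, ?_⟩
    · rw [← hr]
      have : x ^ 2 + ((r * x + c) / 2) ^ 2 - r * x * ((r * x + c) / 2)
          = x ^ 2 + (c ^ 2 - r ^ 2 * x ^ 2) / 4 := by ring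
      rw [this, hc2, hr2]; linarith
    · show y ≤ (r * x + c) / 2
      by_contra hy
      push Not at hy
      set f := (r * x + c) / 2 with hf
      set d := Real.sqrt (1 - y ^ 2) with hd
      have hd2 : d ^ 2 = 1 - y ^ 2 := Real.sq_sqrt (by nlinarith)
      have hd0 : 0 ≤ d := Real.sqrt_nonneg _
      have hx34 : 3 / 4 < x ^ 2 := by
        have : (r / 2) ^ 2 < x ^ 2 := pow_lt_pow_left₀ hx (by positivity) (by norm_num)
        have h34 : (r / 2) ^ 2 = 3 / 4 := by rw [div_pow, hr2]; norm_num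
        linarith
      have hc12 : c < 1 / 2 := by
        apply lt_of_pow_lt_pow_left₀ 2 (by norm_num)
        rw [hc2]; linarith
      have hrc : r * c ≤ x := by
        have : (r * c) ^ 2 ≤ x ^ 2 := by
          rw [mul_pow, hr2, hc2]; nlinarith
        exact le_of_sq_le_sq_real this hx0
      set e := (x - r * c) / 2 with he
      have he0 : 0 ≤ e := by rw [he]; linarith
      have he2 : e ^ 2 = 1 - f ^ 2 := by
        rw [he, hf]
        have : ((x - r * c) / 2) ^ 2 + ((r * x + c) / 2) ^ 2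
            = (1 + r ^ 2) * (x ^ 2 + c ^ 2) / 4 := by ring
        rw [hr2, hc2] at this
        linarith
      have he12 : e ≤ 1 / 2 := by
        rw [he]
        have := mul_nonneg hr0.le hc0
        linarith
      have hf0 : 0 ≤ f := by rw [hf]; have := mul_nonneg hr0.le hx0; linarith
      have he14 : e ^ 2 ≤ 1 / 4 := by
        have := pow_le_pow_left₀ he0 he12 2
        linarith
      have hfr : r / 2 ≤ f := by
        apply le_of_sq_le_sq_real _ hf0
        rw [div_pow, hr2]; linarith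
      have hyr : r / 2 < y := lt_of_le_of_lt hfr hy
      have hy34 : 3 / 4 < y ^ 2 := by
        have : (r / 2) ^ 2 < y ^ 2 := pow_lt_pow_left₀ hyr (by positivity) (by norm_num)
        have h34 : (r / 2) ^ 2 = 3 / 4 := by rw [div_pow, hr2]; norm_num
        linarith
      have hd12 : d ≤ 1 / 2 := by
        apply le_of_sq_le_sq_real _ (by norm_num)
        rw [hd2]; linarith
      have hr1 : 1 < r := by
        apply lt_of_pow_lt_pow_left₀ 2 hr0.le
        rw [hr2]; norm_num
      have hs : y - c ≤ s := by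
        have h4 : (y - s) ^ 2 ≤ c ^ 2 := by rw [hc2]; linarith
        have := abs_le.1 (abs_le_of_sq_le_sq h4 hc0)
        linarith [this.2]
      have ht : x - d ≤ t := by
        have h4 : (x - t) ^ 2 ≤ d ^ 2 := by rw [hd2]; linarith
        have := abs_le.1 (abs_le_of_sq_le_sq h4 hd0)
        linarith [this.2]
      have hs0 : 0 < y - c := by linarith
      have ht0 : 0 < x - d := by linarith
      have hss : (y - c) ^ 2 ≤ s ^ 2 := pow_le_pow_left₀ hs0.le hs 2
      have htt : (x - d) ^ 2 ≤ t ^ 2 := pow_le_pow_left₀ ht0.le ht 2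
      have hmain : 1 / 2 ≤ y * c + x * d := by
        have e1 : (y - c) ^ 2 + (x - d) ^ 2
            = (y ^ 2 + c ^ 2) + (x ^ 2 + d ^ 2) - 2 * (y * c + x * d) := by ring
        rw [hc2, hd2] at e1
        linarith
      have heq : f * c + x * e = 1 / 2 := by
        rw [hf, he]
        have : (r * x + c) / 2 * c + x * ((x - r * c) / 2) = (x ^ 2 + c ^ 2) / 2 := by ring
        rw [this, hc2]; ring
      have hed : (e - d) * (e + d) = (y - f) * (y + f) := by
        have : (e - d) * (e + d) = e ^ 2 - d ^ 2 := by ring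
        rw [this, he2, hd2]; ring
      have hed0 : 0 ≤ e - d := by
        by_contra hneg
        push Not at hneg
        have h5 : 0 < (y - f) * (y + f) := by
          apply mul_pos <;> linarith
        have h6 : (e - d) * (e + d) ≤ 0 :=
          mul_nonpos_of_nonpos_of_nonneg hneg.le (by linarith)
        linarith
      have h7 : (y - f) * r ≤ e - d := by
        have h8 : (e - d) * (e + d) ≤ (e - d) * 1 :=
          mul_le_mul_of_nonneg_left (by linarith) hed0
        have h9 : (y - f) * r ≤ (y - f) * (y + f) :=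
          mul_le_mul_of_nonneg_left (by linarith) (by linarith)
        linarith
      have h10 : x * ((y - f) * r) ≤ x * (e - d) := mul_le_mul_of_nonneg_left h7 hx0
      have h11 : (3 / 2) * (y - f) ≤ x * ((y - f) * r) := by
        have h32 : 3 / 2 ≤ x * r := by
          have := mul_le_mul_of_nonneg_right hx.le hr0.le
          have h4 : r / 2 * r = r ^ 2 / 2 := by ring
          rw [h4, hr2] at this; linarith
        have h33 := mul_le_mul_of_nonneg_right h32 (by linarith : 0 ≤ y - f)
        have h34 : x * r * (y - f) = x * ((y - f) * r) := by ring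
        linarith
      have h12 : c * (y - f) ≤ (1 / 2) * (y - f) :=
        mul_le_mul_of_nonneg_right hc12.le (by linarith)
      have h13 : c * (y - f) - x * (e - d) = (y * c + x * d) - (f * c + x * e) := by ring
      linarith

end Pool.Agent.V7H8.Cover
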