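import Pool.Agent.V7H8.CoverBasic

set_option autoImplicit false
open MeasureTheory Set

namespace Pool.Agent.V7H8.Cover

/-- sliding window maximum of a concave function with maximum at `xs` -/
noncomputable def win (h : ℝ → ℝ) (xs δ x : ℝ) : ℝ := h (min (x + δ) xs) + h (max x xs) - h xs

theorem mono_left {h : ℝ → ℝ} {m xs : ℝ} (hh : ConcaveOn ℝ (Icc 0 m) h) (hxs : xs ∈ Icc (0:ℝ) m)
    (hmax : ∀ x ∈ Icc (0:ℝ) m, h x ≤ h xs) {u v : ℝ} (hu : 0 ≤ u) (huv : u ≤ v) (hv : v ≤ xs) :
    h u ≤ h v := by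
  rcases eq_or_lt_of_le (huv.trans hv) with h1 | h1
  · have : u = v := le_antisymm huv (by rw [h1]; exact hv)
    rw [this]
  · have hum : u ∈ Icc (0:ℝ) m := ⟨hu, (huv.trans hv).trans hxs.2⟩
    have hpos : 0 < xs - u := by linarith
    have ht0 : 0 ≤ (xs - v) / (xs - u) := div_nonneg (by linarith) hpos.le
    have ht1 : 0 ≤ (v - u) / (xs - u) := div_nonneg (by linarith) hpos.le
    have hsum : (xs - v) / (xs - u) + (v - u) / (xs - u) = 1 := by
      rw [← add_div]
      have : xs - v + (v - u) = xs - u := by ring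
      rw [this, div_self hpos.ne']
    have h2 := hh.2 hum hxs ht0 ht1 hsum
    simp only [smul_eq_mul] at h2
    have h3 : (xs - v) / (xs - u) * u + (v - u) / (xs - u) * xs = v := by
      field_simp
      ring
    rw [h3] at h2
    have h4 := hmax u hum
    have h5 : (v - u) / (xs - u) = 1 - (xs - v) / (xs - u) := by linarith
    rw [h5] at h2 ht1
    nlinarith

theorem anti_right {h : ℝ → ℝ} {m xs : ℝ} (hh : ConcaveOn ℝ (Icc 0 m) h)
    (hxs : xs ∈ Icc (0:ℝ) m)
    (hmax : ∀ x ∈ Icc (0:ℝ) m, h x ≤ h xs) {u v : ℝ} (hu : xs ≤ u) (huv : u ≤ v) (hv : v ≤ m) :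
    h v ≤ h u := by
  rcases eq_or_lt_of_le (hu.trans huv) with h1 | h1
  · have : u = v := le_antisymm huv (by rw [← h1]; exact hu)
    rw [this]
  · have hvm : v ∈ Icc (0:ℝ) m := ⟨(hxs.1.trans hu).trans huv, hv⟩
    have hpos : 0 < v - xs := by linarith
    have ht0 : 0 ≤ (v - u) / (v - xs) := div_nonneg (by linarith) hpos.le
    have ht1 : 0 ≤ (u - xs) / (v - xs) := div_nonneg (by linarith) hpos.le
    have hsum : (v - u) / (v - xs) + (u - xs) / (v - xs) = 1 := by
      rw [← add_div]
      have : v - u + (u - xs) = v - xs := by ring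
      rw [this, div_self hpos.ne']
    have h2 := hh.2 hxs hvm ht0 ht1 hsum
    simp only [smul_eq_mul] at h2
    have h3 : (v - u) / (v - xs) * xs + (u - xs) / (v - xs) * v = u := by
      field_simp
      ring
    rw [h3] at h2
    have h4 := hmax v hvm
    have h5 : (v - u) / (v - xs) = 1 - (u - xs) / (v - xs) := by linarith
    rw [h5] at h2 ht0
    nlinarith

theorem le_win {h : ℝ → ℝ} {m xs δ : ℝ} (hh : ConcaveOn ℝ (Icc 0 m) h)
    (hxs : xs ∈ Icc (0:ℝ) m) (hmax : ∀ x ∈ Icc (0:ℝ) m, h x ≤ h xs)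
    {x a : ℝ} (hx0 : 0 ≤ x) (hxm : x + δ ≤ m) (ha0 : 0 ≤ a) (ha : a ≤ δ) :
    h (x + a) ≤ win h xs δ x := by
  unfold win
  rcases le_total (x + a) xs with h1 | h1
  · have h2 : max x xs = xs := max_eq_right (by linarith)
    rw [h2]
    have h3 : h (x + a) ≤ h (min (x + δ) xs) :=
      mono_left hh hxs hmax (by linarith) (le_min (by linarith) h1) (min_le_right _ _)
    linarith
  · have h2 : min (x + δ) xs = xs := min_eq_right (by linarith)
    rw [h2]
    have h3 : h (x + a) ≤ h (max x xs) :=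
      anti_right hh hxs hmax (le_max_right _ _) (max_le (by linarith) h1) (by linarith)
    linarith

theorem win_le {h : ℝ → ℝ} {m xs δ : ℝ} 
    (hxs : xs ∈ Icc (0:ℝ) m) (hmax : ∀ x ∈ Icc (0:ℝ) m, h x ≤ h xs)
    {x : ℝ} (hδ : 0 ≤ δ) (hx0 : 0 ≤ x) (hxm : x + δ ≤ m) :
    win h xs δ x ≤ h xs := by
  unfold win
  have h1 : h (min (x + δ) xs) ≤ h xs :=
    hmax _ ⟨le_min (by linarith) hxs.1, (min_le_right _ _).trans hxs.2⟩
  have h2 : h (max x xs) ≤ h xs :=
    hmax _ ⟨le_max_of_le_left hx0, max_le (by linarith) hxs.2⟩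
  rcases le_total x xs with h3 | h3
  · rw [max_eq_right h3] at h2 ⊢
    linarith
  · linarith

theorem win_plateau {h : ℝ → ℝ} {xs δ : ℝ} {x : ℝ} (h1 : x ≤ xs) (h2 : xs ≤ x + δ) :
    win h xs δ x = h xs := by
  unfold win
  rw [min_eq_right h2, max_eq_right h1]
  ring

theorem win_concave {h : ℝ → ℝ} {m xs δ : ℝ} (hh : ConcaveOn ℝ (Icc 0 m) h)
    (hxs : xs ∈ Icc (0:ℝ) m) (hmax : ∀ x ∈ Icc (0:ℝ) m, h x ≤ h xs) (hδ : 0 ≤ δ)
    (hm : 1 + δ = m) : ConcaveOn ℝ (Icc 0 1) (win h xs δ) := by
  refine ⟨convex_Icc 0 1, ?_⟩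
  intro x hx y hy a b ha hb hab
  simp only [smul_eq_mul]
  unfold win
  have hxm : x + δ ≤ m := by linarith [hx.2]
  have hym : y + δ ≤ m := by linarith [hy.2]
  have c1 : min (x + δ) xs ∈ Icc (0:ℝ) m :=
    ⟨le_min (by linarith [hx.1]) hxs.1, (min_le_right _ _).trans hxs.2⟩
  have c2 : min (y + δ) xs ∈ Icc (0:ℝ) m :=
    ⟨le_min (by linarith [hy.1]) hxs.1, (min_le_right _ _).trans hxs.2⟩
  have d1 : max x xs ∈ Icc (0:ℝ) m := ⟨le_max_of_le_left hx.1, max_le (by linarith) hxs.2⟩
  have d2 : max y xs ∈ Icc (0:ℝ) m := ⟨le_max_of_le_left hy.1, max_le (by linarith) hxs.2⟩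
  have e1 := hh.2 c1 c2 ha hb hab
  have e2 := hh.2 d1 d2 ha hb hab
  simp only [smul_eq_mul] at e1 e2
  have hb' : b = 1 - a := by linarith
  have f1 : a * min (x + δ) xs + b * min (y + δ) xs ≤ min (a * x + b * y + δ) xs := by
    apply le_min
    · have g1 := mul_le_mul_of_nonneg_left (min_le_left (x + δ) xs) ha
      have g2 := mul_le_mul_of_nonneg_left (min_le_left (y + δ) xs) hb
      have : a * (x + δ) + b * (y + δ) = a * x + b * y + (a + b) * δ := by ring
      rw [hab] at this
      linarith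
    · have g1 := mul_le_mul_of_nonneg_left (min_le_right (x + δ) xs) ha
      have g2 := mul_le_mul_of_nonneg_left (min_le_right (y + δ) xs) hb
      have : a * xs + b * xs = (a + b) * xs := by ring
      rw [hab] at this
      linarith
  have f2 : max (a * x + b * y) xs ≤ a * max x xs + b * max y xs := by
    apply max_le
    · have g1 := mul_le_mul_of_nonneg_left (le_max_left x xs) ha
      have g2 := mul_le_mul_of_nonneg_left (le_max_left y xs) hb
      linarith
    · have g1 := mul_le_mul_of_nonneg_left (le_max_right x xs) ha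
      have g2 := mul_le_mul_of_nonneg_left (le_max_right y xs) hb
      have : a * xs + b * xs = (a + b) * xs := by ring
      rw [hab] at this
      linarith
  have k1 : h (a * min (x + δ) xs + b * min (y + δ) xs) ≤ h (min (a * x + b * y + δ) xs) := by
    apply mono_left hh hxs hmax _ f1 (min_le_right _ _)
    have := mul_nonneg ha c1.1
    have := mul_nonneg hb c2.1
    linarith
  have k2 : h (a * max x xs + b * max y xs) ≤ h (max (a * x + b * y) xs) := by
    apply anti_right hh hxs hmax (le_max_right _ _) f2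
    have g1 := mul_le_mul_of_nonneg_left d1.2 ha
    have g2 := mul_le_mul_of_nonneg_left d2.2 hb
    have : a * m + b * m = (a + b) * m := by ring
    rw [hab] at this
    linarith
  have : a * h xs + b * h xs = h xs := by rw [← add_mul, hab, one_mul]
  nlinarith

theorem win_cont {h : ℝ → ℝ} {m xs δ : ℝ} (hh : ContinuousOn h (Icc 0 m))
    (hxs : xs ∈ Icc (0:ℝ) m) (hδ : 0 ≤ δ)
    (hm : 1 + δ = m) : ContinuousOn (win h xs δ) (Icc 0 1) := by
  unfold win
  refine ContinuousOn.sub (ContinuousOn.add ?_ ?_) continuousOn_const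
  · apply hh.comp (f := fun x => min (x + δ) xs) (by fun_prop)
    intro x hx
    exact ⟨le_min (by linarith [hx.1]) hxs.1, (min_le_right _ _).trans hxs.2⟩
  · apply hh.comp (f := fun x => max x xs) (by fun_prop)
    intro x hx
    exact ⟨le_max_of_le_left hx.1, max_le (by linarith [hx.2]) hxs.2⟩

theorem win_integral {h : ℝ → ℝ} {m xs δ : ℝ} (hh : ContinuousOn h (Icc 0 m))
    (hxs : xs ∈ Icc (0:ℝ) m) (hmax : ∀ x ∈ Icc (0:ℝ) m, h x ≤ h xs) (hδ : 0 ≤ δ) (hδ1 : δ ≤ 1)
    (hm : 1 + δ = m) :
    ∫ x in (0:ℝ)..1, win h xs δ x ≤ (∫ x in δ..1, h x) + δ * h xs := by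
  set f : ℝ → ℝ := fun y => h (min y xs) with hf
  set g : ℝ → ℝ := fun y => h (max y xs) with hg
  have hfc : ContinuousOn f (Icc 0 m) := by
    apply hh.comp (f := fun x => min x xs) (by fun_prop)
    intro x hx
    exact ⟨le_min hx.1 hxs.1, (min_le_right _ _).trans hxs.2⟩
  have hgc : ContinuousOn g (Icc 0 m) := by
    apply hh.comp (f := fun x => max x xs) (by fun_prop)
    intro x hx
    exact ⟨le_max_of_le_left hx.1, max_le hx.2 hxs.2⟩
  have hfi : ∀ u v : ℝ, 0 ≤ u → u ≤ v → v ≤ m → IntervalIntegrable f volume u v := by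
    intro u v hu huv hv
    apply ContinuousOn.intervalIntegrable
    rw [uIcc_of_le huv]
    exact hfc.mono (Icc_subset_Icc hu hv)
  have hgi : ∀ u v : ℝ, 0 ≤ u → u ≤ v → v ≤ m → IntervalIntegrable g volume u v := by
    intro u v hu huv hv
    apply ContinuousOn.intervalIntegrable
    rw [uIcc_of_le huv]
    exact hgc.mono (Icc_subset_Icc hu hv)
  have e1 : ∀ x : ℝ, h x = f x + g x - h xs := by
    intro x
    simp only [hf, hg]
    rcases le_total x xs with h1 | h1
    · rw [min_eq_left h1, max_eq_right h1]; ring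
    · rw [min_eq_right h1, max_eq_left h1]; ring
  have e2 : ∫ x in δ..1, h x = (∫ x in δ..1, f x) + (∫ x in δ..1, g x) - (1 - δ) * h xs := by
    have : ∫ x in δ..1, h x = ∫ x in δ..1, (f x + g x - h xs) :=
      intervalIntegral.integral_congr (fun x _ => e1 x)
    rw [this, intervalIntegral.integral_sub ((hfi δ 1 hδ hδ1 (by linarith)).add
      (hgi δ 1 hδ hδ1 (by linarith))) (by simp), intervalIntegral.integral_add
      (hfi δ 1 hδ hδ1 (by linarith)) (hgi δ 1 hδ hδ1 (by linarith))]
    simp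
  have e3 : ∫ x in (0:ℝ)..1, win h xs δ x
      = (∫ x in δ..(1 + δ), f x) + (∫ x in (0:ℝ)..1, g x) - h xs := by
    have h1 : ∫ x in (0:ℝ)..1, win h xs δ x = ∫ x in (0:ℝ)..1, (f (x + δ) + g x - h xs) := by
      apply intervalIntegral.integral_congr
      intro x _
      simp only [win, hf, hg]
    have hfi' : IntervalIntegrable (fun x => f (x + δ)) volume 0 1 := by
      apply ContinuousOn.intervalIntegrable
      rw [uIcc_of_le (by norm_num)]
      apply hfc.comp (f := fun x => x + δ) (by fun_prop)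
      intro x hx
      exact ⟨by linarith [hx.1], by linarith [hx.2]⟩
    rw [h1, intervalIntegral.integral_sub (hfi'.add (hgi 0 1 le_rfl (by norm_num) (by linarith)))
      (by simp), intervalIntegral.integral_add hfi' (hgi 0 1 le_rfl (by norm_num) (by linarith)),
      intervalIntegral.integral_comp_add_right]
    simp
  have e4 : (∫ x in δ..1, f x) + (∫ x in (1:ℝ)..(1 + δ), f x) = ∫ x in δ..(1 + δ), f x :=
    intervalIntegral.integral_add_adjacent_intervals (hfi δ 1 hδ hδ1 (by linarith))
      (hfi 1 (1 + δ) (by norm_num) (by linarith) hm.le)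
  have e5 : (∫ x in (0:ℝ)..δ, g x) + (∫ x in δ..1, g x) = ∫ x in (0:ℝ)..1, g x :=
    intervalIntegral.integral_add_adjacent_intervals (hgi 0 δ le_rfl hδ (by linarith))
      (hgi δ 1 hδ hδ1 (by linarith))
  have e6 : ∫ x in (1:ℝ)..(1 + δ), f x ≤ δ * h xs := by
    have h1 : ∫ x in (1:ℝ)..(1 + δ), f x ≤ ∫ x in (1:ℝ)..(1 + δ), h xs := by
      apply intervalIntegral.integral_mono_on (by linarith)
        (hfi 1 (1 + δ) (by norm_num) (by linarith) hm.le) (by simp)
      intro x hx
      exact hmax _ ⟨le_min (by linarith [hx.1]) hxs.1, (min_le_right _ _).trans hxs.2⟩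
    simpa using h1
  have e7 : ∫ x in (0:ℝ)..δ, g x ≤ δ * h xs := by
    have h1 : ∫ x in (0:ℝ)..δ, g x ≤ ∫ x in (0:ℝ)..δ, h xs := by
      apply intervalIntegral.integral_mono_on hδ (hgi 0 δ le_rfl hδ (by linarith)) (by simp)
      intro x hx
      exact hmax _ ⟨le_max_of_le_left hx.1, max_le (by linarith [hx.2]) hxs.2⟩
    simpa using h1
  rw [e3, e2]
  linarith

/-- trapezoid rule for concave functions -/
theorem trap {h : ℝ → ℝ} {u v : ℝ} (huv : u ≤ v) (hc : ContinuousOn h (Icc u v))
    (hh : ConcaveOn ℝ (Icc u v) h) : (v - u) * (h u + h v) / 2 ≤ ∫ x in u..v, h x := by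
  rcases eq_or_lt_of_le huv with h1 | h1
  · rw [h1]; simp
  · have hpos : 0 < v - u := by linarith
    have key : ∫ x in u..v, (h u + (h v - h u) / (v - u) * (x - u)) ≤ ∫ x in u..v, h x := by
      apply intervalIntegral.integral_mono_on huv
      · apply Continuous.intervalIntegrable; fun_prop
      · apply ContinuousOn.intervalIntegrable
        rw [uIcc_of_le huv]; exact hc
      · intro x hx
        have ht0 : 0 ≤ (v - x) / (v - u) := div_nonneg (by linarith [hx.2]) hpos.le
        have ht1 : 0 ≤ (x - u) / (v - u) := div_nonneg (by linarith [hx.1]) hpos.le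
        have hsum : (v - x) / (v - u) + (x - u) / (v - u) = 1 := by
          rw [← add_div]
          have : v - x + (x - u) = v - u := by ring
          rw [this, div_self hpos.ne']
        have h2 := hh.2 (left_mem_Icc.2 huv) (right_mem_Icc.2 huv) ht0 ht1 hsum
        simp only [smul_eq_mul] at h2
        have h3 : (v - x) / (v - u) * u + (x - u) / (v - u) * v = x := by
          field_simp; ring
        rw [h3] at h2
        have h4 : (v - x) / (v - u) * h u + (x - u) / (v - u) * h v
            = h u + (h v - h u) / (v - u) * (x - u) := by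
          field_simp; ring
        linarith
    have comp : ∫ x in u..v, (h u + (h v - h u) / (v - u) * (x - u))
        = (v - u) * (h u + h v) / 2 := by
      rw [intervalIntegral.integral_add (by simp) (by apply Continuous.intervalIntegrable; fun_prop)]
      rw [intervalIntegral.integral_const_mul]
      rw [intervalIntegral.integral_sub (by apply Continuous.intervalIntegrable; fun_prop) (by simp)]
      simp only [intervalIntegral.integral_const, smul_eq_mul, integral_id]
      field_simp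
      ring
    linarith

end Pool.Agent.V7H8.Cover
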