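import Pool.Agent.V7H8.CoverE1

set_option autoImplicit false
open MeasureTheory Set

namespace Pool.Agent.V7H8.Cover

theorem cos_pi3_sub (s : ℝ) : Real.cos (Real.pi / 3 - s)
    = Real.cos s / 2 + Real.sqrt 3 / 2 * Real.sin s := by
  rw [Real.cos_sub, Real.cos_pi_div_three, Real.sin_pi_div_three]; ring

theorem sin_pi3_sub (s : ℝ) : Real.sin (Real.pi / 3 - s)
    = Real.sqrt 3 / 2 * Real.cos s - Real.sin s / 2 := by
  rw [Real.sin_sub, Real.cos_pi_div_three, Real.sin_pi_div_three]; ring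

/-- chord above : for a concave function with value `≥ c t` at `0` etc. -/
theorem concave_ratio {f : ℝ → ℝ} {b z zb : ℝ} (hf : ConcaveOn ℝ (Icc 0 b) f) (h0 : f 0 = 0)
    (hz : 0 ≤ z) (hzb : z ≤ zb) (hb : zb ≤ b) : z * f zb ≤ zb * f z := by
  rcases eq_or_lt_of_le (hz.trans hzb) with h1 | h1
  · have hz' : z = 0 := le_antisymm (by rw [h1]; exact hzb) hz
    rw [hz', ← h1]
  · have ht0 : 0 ≤ (zb - z) / zb := div_nonneg (by linarith) h1.le
    have ht1 : 0 ≤ z / zb := div_nonneg hz h1.le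
    have hsum : (zb - z) / zb + z / zb = 1 := by
      rw [← add_div]
      have : zb - z + z = zb := by ring
      rw [this, div_self h1.ne']
    have h2 := hf.2 (⟨le_rfl, h1.le.trans hb⟩ : (0:ℝ) ∈ Icc 0 b) (⟨h1.le, hb⟩ : zb ∈ Icc 0 b)
      ht0 ht1 hsum
    simp only [smul_eq_mul, mul_zero, zero_add, h0] at h2
    have h3 : z / zb * zb = z := by field_simp
    rw [h3] at h2
    have h4 : z / zb * f zb * zb = z * f zb := by field_simp
    nlinarith [mul_le_mul_of_nonneg_right h2 h1.le]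

theorem int_w : ∫ s in (0:ℝ)..(Real.pi / 6), (Real.sin (Real.pi / 3 - s) - Real.sin s)
    = Real.sqrt 3 - 3 / 2 := by
  have h : ∀ s ∈ uIcc (0:ℝ) (Real.pi / 6), HasDerivAt
      (fun s => Real.cos (Real.pi / 3 - s) + Real.cos s)
      (Real.sin (Real.pi / 3 - s) - Real.sin s) s := by
    intro s _
    have h1 : HasDerivAt (fun s : ℝ => Real.pi / 3 - s) (-1) s := by
      simpa using (hasDerivAt_id s).const_sub (Real.pi / 3)
    have h2 := h1.cos
    have h3 := Real.hasDerivAt_cos s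
    have h4 := h2.add h3
    refine HasDerivAt.congr_deriv h4 ?_
    ring
  rw [intervalIntegral.integral_eq_sub_of_hasDerivAt h
    (by apply Continuous.intervalIntegrable; fun_prop)]
  have e1 : Real.pi / 3 - Real.pi / 6 = Real.pi / 6 := by ring
  rw [e1, sub_zero, Real.cos_pi_div_three, Real.cos_pi_div_six, Real.cos_zero]
  ring

theorem int_4 : ∫ s in (0:ℝ)..(Real.pi / 6),
    4 * (Real.sin s + Real.sin (Real.pi / 3 - s)) * Real.sin s = Real.pi / 6 := by
  have h : ∀ s ∈ uIcc (0:ℝ) (Real.pi / 6), HasDerivAt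
      (fun s => s - Real.sin (Real.pi / 3 + 2 * s))
      (4 * (Real.sin s + Real.sin (Real.pi / 3 - s)) * Real.sin s) s := by
    intro s _
    have h1 : HasDerivAt (fun s : ℝ => Real.pi / 3 + 2 * s) 2 s := by
      simpa using ((hasDerivAt_id s).const_mul 2).const_add (Real.pi / 3)
    have h2 := h1.sin
    have h4 := (hasDerivAt_id s).sub h2
    refine HasDerivAt.congr_deriv h4 ?_
    rw [sin_pi3_sub, Real.cos_add, Real.cos_pi_div_three, Real.sin_pi_div_three,
      Real.cos_two_mul, Real.sin_two_mul]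
    have := Real.sin_sq_add_cos_sq s
    nlinarith
  rw [intervalIntegral.integral_eq_sub_of_hasDerivAt h
    (by apply Continuous.intervalIntegrable; fun_prop)]
  have e1 : Real.pi / 3 + 2 * (Real.pi / 6) = Real.pi - Real.pi / 3 := by ring
  rw [e1, Real.sin_pi_sub]
  simp

/-- the first moment inequality for the pivot lemma -/
theorem int_zg : ∫ s in (0:ℝ)..(Real.pi / 6), (Real.cos (Real.pi / 3 - s) - 1 / 2) *
    (0.518 * Real.sin (Real.pi / 3 - s) - Real.sin s) ≤ 0 := by
  have h : ∀ s ∈ uIcc (0:ℝ) (Real.pi / 6), HasDerivAt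
      (fun s => 0.518 * (Real.sin (Real.pi / 3 - s)) ^ 2 * (-1 / 2)
        - 0.518 / 2 * Real.cos (Real.pi / 3 - s) - (Real.sin s ^ 2 / 4
          + Real.sqrt 3 / 2 * (s / 2 - Real.sin s * Real.cos s / 2)) - Real.cos s / 2)
      ((Real.cos (Real.pi / 3 - s) - 1 / 2) *
    (0.518 * Real.sin (Real.pi / 3 - s) - Real.sin s)) s := by
    intro s _
    have h1 : HasDerivAt (fun s : ℝ => Real.pi / 3 - s) (-1) s := by
      simpa using (hasDerivAt_id s).const_sub (Real.pi / 3)
    have h2 := h1.cos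
    have h2' := h1.sin
    have h3 := Real.hasDerivAt_cos s
    have h3' := Real.hasDerivAt_sin s
    have a1 := ((h2'.pow 2).const_mul 0.518).mul_const (-1 / 2)
    have a2 := h2.const_mul (0.518 / 2)
    have a3 := (h3'.pow 2).div_const 4
    have a4 := (((hasDerivAt_id s).div_const 2).sub ((h3'.mul h3).div_const 2)).const_mul
      (Real.sqrt 3 / 2)
    have a5 := h3.div_const 2
    have a := ((a1.sub a2).sub (a3.add a4)).sub a5
    refine HasDerivAt.congr_deriv a ?_
    rw [cos_pi3_sub, sin_pi3_sub]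
    have := Real.sin_sq_add_cos_sq s
    have h33 : Real.sqrt 3 ^ 2 = 3 := Real.sq_sqrt (by norm_num)
    have hc : Real.cos s ^ 2 = 1 - Real.sin s ^ 2 := by linarith
    simp only [Nat.cast_ofNat, Nat.add_one_sub_one, pow_one]
    ring_nf
    rw [hc]
    ring_nf
  rw [intervalIntegral.integral_eq_sub_of_hasDerivAt h
    (by apply Continuous.intervalIntegrable; fun_prop)]
  have e1 : Real.pi / 3 - Real.pi / 6 = Real.pi / 6 := by ring
  rw [e1, sub_zero, Real.sin_pi_div_six, Real.cos_pi_div_six, Real.sin_zero, Real.cos_zero,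
    Real.sin_pi_div_three, Real.cos_pi_div_three]
  have h33 : Real.sqrt 3 ^ 2 = 3 := Real.sq_sqrt (by norm_num)
  have hs : 1.73205 < Real.sqrt 3 := by
    apply Real.lt_sqrt_of_sq_lt; norm_num
  have hs2 : Real.sqrt 3 < 1.73206 := by
    rw [Real.sqrt_lt' (by norm_num)]; norm_num
  have hpi := Real.pi_gt_d4
  nlinarith

end Pool.Agent.V7H8.Cover
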