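import Pool.Agent.V7H8.CoverE2

set_option autoImplicit false
open MeasureTheory Set

namespace Pool.Agent.V7H8.Cover

theorem pi6_pos : (0:ℝ) < Real.pi / 6 := by have := Real.pi_pos; linarith

theorem sqrt3_lo : 1.7320508 < Real.sqrt 3 := by
  apply Real.lt_sqrt_of_sq_lt; norm_num

theorem sqrt3_hi : Real.sqrt 3 < 1.7320509 := by
  rw [Real.sqrt_lt' (by norm_num)]; norm_num

/-- on `[0, π/6]`, `cos (π/3 - s)` lies in `[1/2, √3/2]`. -/
theorem u_mem {s : ℝ} (hs : s ∈ Icc (0:ℝ) (Real.pi / 6)) :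
    Real.cos (Real.pi / 3 - s) ∈ Icc (1 / 2 : ℝ) (Real.sqrt 3 / 2) := by
  have hpi := Real.pi_pos
  constructor
  · rw [← Real.cos_pi_div_three]
    apply Real.cos_le_cos_of_nonneg_of_le_pi <;> linarith [hs.1, hs.2]
  · rw [← Real.cos_pi_div_six]
    apply Real.cos_le_cos_of_nonneg_of_le_pi <;> linarith [hs.1, hs.2]

theorem c_mem {s : ℝ} (hs : s ∈ Icc (0:ℝ) (Real.pi / 6)) :
    Real.cos s ∈ Icc (Real.sqrt 3 / 2) 1 := by
  have hpi := Real.pi_pos
  constructor
  · rw [← Real.cos_pi_div_six]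
    apply Real.cos_le_cos_of_nonneg_of_le_pi <;> linarith [hs.1, hs.2]
  · exact Real.cos_le_one s

theorem u_mono {s t : ℝ} (hs : 0 ≤ s) (hst : s ≤ t) (ht : t ≤ Real.pi / 6) :
    Real.cos (Real.pi / 3 - s) ≤ Real.cos (Real.pi / 3 - t) := by
  have hpi := Real.pi_pos
  apply Real.cos_le_cos_of_nonneg_of_le_pi <;> linarith

/-- the weight function of the pivot lemma -/
noncomputable def gw (s : ℝ) : ℝ := 0.518 * Real.sin (Real.pi / 3 - s) - Real.sin s

theorem gw_anti {s t : ℝ} (hs : 0 ≤ s) (hst : s ≤ t) (ht : t ≤ Real.pi / 6) : gw t ≤ gw s := by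
  have hpi := Real.pi_pos
  unfold gw
  have h1 : Real.sin (Real.pi / 3 - t) ≤ Real.sin (Real.pi / 3 - s) := by
    apply Real.sin_le_sin_of_le_of_le_pi_div_two <;> linarith
  have h2 : Real.sin s ≤ Real.sin t := by
    apply Real.sin_le_sin_of_le_of_le_pi_div_two <;> linarith
  linarith

theorem exists_pivot : ∃ t : ℝ, 0 < t ∧ t ≤ Real.pi / 6 ∧ gw t = 0 := by
  have hc : ContinuousOn gw (Icc 0 (Real.pi / 6)) := by unfold gw; fun_prop
  have h0 : 0 < gw 0 := by
    unfold gw
    rw [sub_zero, Real.sin_pi_div_three, Real.sin_zero]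
    have := sqrt3_lo
    linarith
  have h1 : gw (Real.pi / 6) < 0 := by
    unfold gw
    have e1 : Real.pi / 3 - Real.pi / 6 = Real.pi / 6 := by ring
    rw [e1, Real.sin_pi_div_six]
    norm_num
  have h2 := intermediate_value_Icc' pi6_pos.le hc
  have h3 : (0:ℝ) ∈ Icc (gw (Real.pi / 6)) (gw 0) := ⟨h1.le, h0.le⟩
  obtain ⟨t, ht, ht'⟩ := h2 h3
  refine ⟨t, lt_of_le_of_ne ht.1 ?_, ht.2, ht'⟩
  intro h
  rw [← h] at ht'
  linarith

/-- substitution `x = cos (π/3 - s)` -/
theorem subst_u {g : ℝ → ℝ} (hg : ContinuousOn g (Icc (1 / 2) (Real.sqrt 3 / 2))) :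
    ∫ s in (0:ℝ)..(Real.pi / 6), g (Real.cos (Real.pi / 3 - s)) * Real.sin (Real.pi / 3 - s)
      = ∫ x in (1 / 2 : ℝ)..(Real.sqrt 3 / 2), g x := by
  have h := intervalIntegral.integral_comp_mul_deriv'' (a := 0) (b := Real.pi / 6)
    (f := fun s => Real.cos (Real.pi / 3 - s)) (f' := fun s => Real.sin (Real.pi / 3 - s))
    (g := g) (by fun_prop) (by
      intro s _
      have h1 : HasDerivAt (fun s : ℝ => Real.pi / 3 - s) (-1) s := by
        simpa using (hasDerivAt_id s).const_sub (Real.pi / 3)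
      have h2 := h1.cos
      refine (HasDerivAt.congr_deriv h2 ?_).hasDerivWithinAt
      ring) (by fun_prop) (by
      rw [uIcc_of_le pi6_pos.le]
      apply hg.mono
      rintro x ⟨s, hs, rfl⟩
      exact u_mem hs)
  have e1 : Real.pi / 3 - Real.pi / 6 = Real.pi / 6 := by ring
  simp only [Function.comp, sub_zero, e1, Real.cos_pi_div_three, Real.cos_pi_div_six] at h
  exact h

/-- substitution `x = cos s` -/
theorem subst_c {g : ℝ → ℝ} (hg : ContinuousOn g (Icc (Real.sqrt 3 / 2) 1)) :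
    ∫ s in (0:ℝ)..(Real.pi / 6), g (Real.cos s) * Real.sin s
      = ∫ x in (Real.sqrt 3 / 2 : ℝ)..1, g x := by
  have h := intervalIntegral.integral_comp_mul_deriv'' (a := 0) (b := Real.pi / 6)
    (f := fun s => Real.cos s) (f' := fun s => -Real.sin s)
    (g := g) (by fun_prop) (by
      intro s _
      exact (Real.hasDerivAt_cos s).hasDerivWithinAt) (by fun_prop) (by
      rw [uIcc_of_le pi6_pos.le]
      apply hg.mono
      rintro x ⟨s, hs, rfl⟩
      exact c_mem hs)
  simp only [Function.comp, Real.cos_zero, Real.cos_pi_div_six] at h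
  have hsy : ∫ x in (1:ℝ)..(Real.sqrt 3 / 2), g x = - ∫ x in (Real.sqrt 3 / 2)..1, g x :=
    intervalIntegral.integral_symm _ _
  rw [hsy] at h
  have e : ∫ s in (0:ℝ)..(Real.pi / 6), g (Real.cos s) * -Real.sin s
      = - ∫ s in (0:ℝ)..(Real.pi / 6), g (Real.cos s) * Real.sin s := by
    rw [← intervalIntegral.integral_neg]
    apply intervalIntegral.integral_congr
    intro s _
    simp
  rw [e] at h
  linarith

/-- pivot lemma: `f` concave on `[1/2, √3/2]`, zero at `1/2`, nonpositive. -/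
theorem pivot {f : ℝ → ℝ} (hc : ContinuousOn f (Icc (1 / 2) (Real.sqrt 3 / 2)))
    (hf : ConcaveOn ℝ (Icc (1 / 2) (Real.sqrt 3 / 2)) f) (h0 : f (1 / 2) = 0)
    (hn : ∀ x ∈ Icc (1 / 2 : ℝ) (Real.sqrt 3 / 2), f x ≤ 0) :
    0 ≤ ∫ s in (0:ℝ)..(Real.pi / 6), f (Real.cos (Real.pi / 3 - s)) * gw s := by
  obtain ⟨t, ht0, ht1, htg⟩ := exists_pivot
  have hpi := Real.pi_pos
  set u : ℝ → ℝ := fun s => Real.cos (Real.pi / 3 - s) with hu
  set zb : ℝ := u t - 1 / 2 with hzb
  have hut : u t ∈ Icc (1 / 2 : ℝ) (Real.sqrt 3 / 2) := u_mem ⟨ht0.le, ht1⟩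
  have hzpos : 0 < zb := by
    have : Real.cos (Real.pi / 3) < Real.cos (Real.pi / 3 - t) := by
      apply Real.cos_lt_cos_of_nonneg_of_le_pi <;> linarith
    rw [Real.cos_pi_div_three] at this
    simp only [hzb, hu]
    linarith
  set c : ℝ := f (u t) / zb with hcdef
  have hc0 : c ≤ 0 := div_nonpos_of_nonpos_of_nonneg (hn _ hut) hzpos.le
  -- shifted function
  have hsh : ConcaveOn ℝ (Icc 0 (Real.sqrt 3 / 2 - 1 / 2)) (fun z => f (z + 1 / 2)) := by
    refine ⟨convex_Icc _ _, ?_⟩
    intro x hx y hy a b ha hb hab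
    have hx' : x + 1 / 2 ∈ Icc (1 / 2 : ℝ) (Real.sqrt 3 / 2) := ⟨by linarith [hx.1], by linarith [hx.2]⟩
    have hy' : y + 1 / 2 ∈ Icc (1 / 2 : ℝ) (Real.sqrt 3 / 2) := ⟨by linarith [hy.1], by linarith [hy.2]⟩
    have := hf.2 hx' hy' ha hb hab
    simp only [smul_eq_mul] at this ⊢
    have e : a * x + b * y + 1 / 2 = a * (x + 1 / 2) + b * (y + 1 / 2) := by
      have : b = 1 - a := by linarith
      rw [this]; ring
    rw [e]
    exact this
  have hsh0 : (fun z => f (z + 1 / 2)) 0 = 0 := by simp only [zero_add]; exact h0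
  have key : ∫ s in (0:ℝ)..(Real.pi / 6), c * ((u s - 1 / 2) * gw s)
      ≤ ∫ s in (0:ℝ)..(Real.pi / 6), f (u s) * gw s := by
    apply intervalIntegral.integral_mono_on pi6_pos.le
    · apply Continuous.intervalIntegrable
      simp only [hu]; unfold gw; fun_prop
    · apply ContinuousOn.intervalIntegrable
      rw [uIcc_of_le pi6_pos.le]
      apply ContinuousOn.mul
      · apply hc.comp (f := u) (by simp only [hu]; fun_prop)
        intro s hs; exact u_mem hs
      · unfold gw; fun_prop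
    · intro s hs
      have hus := u_mem hs
      rcases le_total s t with h1 | h1
      · have hg : 0 ≤ gw s := by rw [← htg]; exact gw_anti hs.1 h1 ht1
        have hm : u s ≤ u t := u_mono hs.1 h1 ht1
        have hr := concave_ratio (z := u s - 1 / 2) (zb := zb) hsh hsh0 (by linarith [hus.1])
          (by simp only [hzb]; linarith) (by simp only [hzb]; linarith [hut.2])
        simp only [hzb, sub_add_cancel] at hr
        have : c * (u s - 1 / 2) ≤ f (u s) := by
          rw [hcdef, div_mul_eq_mul_div, div_le_iff₀ hzpos]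
          simp only [hzb]
          linarith
        nlinarith
      · have hg : gw s ≤ 0 := by rw [← htg]; exact gw_anti ht0.le h1 hs.2
        have hm : u t ≤ u s := u_mono ht0.le h1 hs.2
        have hr := concave_ratio (z := zb) (zb := u s - 1 / 2) hsh hsh0 hzpos.le
          (by simp only [hzb]; linarith) (by linarith [hus.2])
        simp only [hzb, sub_add_cancel] at hr
        have : f (u s) ≤ c * (u s - 1 / 2) := by
          rw [hcdef, div_mul_eq_mul_div, le_div_iff₀ hzpos]
          simp only [hzb]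
          linarith
        nlinarith
  rw [intervalIntegral.integral_const_mul] at key
  have h2 := int_zg
  have h3 : ∫ s in (0:ℝ)..(Real.pi / 6), (u s - 1 / 2) * gw s ≤ 0 := h2
  nlinarith

theorem int_lower {P : ℝ → ℝ} (hc : ContinuousOn P (Icc 0 1)) (hP : ConcaveOn ℝ (Icc 0 1) P)
    (h4 : ∀ s ∈ Icc (0:ℝ) (Real.pi / 6), 4 * (Real.sin s + Real.sin (Real.pi / 3 - s))
      ≤ P (Real.cos s) + P (1 - Real.cos s) + P (Real.cos (Real.pi / 3 - s))
        + P (1 - Real.cos (Real.pi / 3 - s))) :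
    Real.pi / 6 + 2 * (Real.sqrt 3 - 3 / 2) * P (1 / 2)
      + 0.482 * ((∫ x in (1 - Real.sqrt 3 / 2)..(Real.sqrt 3 / 2), P x)
        - (Real.sqrt 3 - 1) * P (1 / 2)) ≤ ∫ x in (0:ℝ)..1, P x := by
  have s3l := sqrt3_lo
  have s3h := sqrt3_hi
  set S : ℝ → ℝ := fun x => P x + P (1 - x) with hS
  have hrefl : ContinuousOn (fun x => P (1 - x)) (Icc 0 1) := by
    apply hc.comp (f := fun x => 1 - x) (by fun_prop)
    intro x hx; exact ⟨by linarith [hx.2], by linarith [hx.1]⟩
  have hSc : ContinuousOn S (Icc 0 1) := hc.add hrefl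
  have hreflc : ConcaveOn ℝ (Icc 0 1) (fun x => P (1 - x)) := by
    refine ⟨convex_Icc _ _, ?_⟩
    intro x hx y hy a b ha hb hab
    have hx' : 1 - x ∈ Icc (0 : ℝ) 1 := ⟨by linarith [hx.2], by linarith [hx.1]⟩
    have hy' : 1 - y ∈ Icc (0 : ℝ) 1 := ⟨by linarith [hy.2], by linarith [hy.1]⟩
    have := hP.2 hx' hy' ha hb hab
    simp only [smul_eq_mul] at this ⊢
    have e : 1 - (a * x + b * y) = a * (1 - x) + b * (1 - y) := by
      have : b = 1 - a := by linarith
      rw [this]; ring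
    rw [e]
    exact this
  have hScc : ConcaveOn ℝ (Icc 0 1) S := hP.add hreflc
  have hShalf : S (1 / 2) = 2 * P (1 / 2) := by
    simp only [hS]
    have : (1:ℝ) - 1 / 2 = 1 / 2 := by norm_num
    rw [this]; ring
  have hii : ∀ f : ℝ → ℝ, ContinuousOn f (Icc 0 1) → ∀ u v : ℝ, 0 ≤ u → u ≤ v → v ≤ 1 →
      IntervalIntegrable f volume u v := by
    intro f hf u v hu huv hv
    apply ContinuousOn.intervalIntegrable
    rw [uIcc_of_le huv]
    exact hf.mono (Icc_subset_Icc hu hv)
  -- folding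
  have fold : ∀ c : ℝ, 1 / 2 ≤ c → c ≤ 1 →
      ∫ x in (1 - c)..c, P x = ∫ x in (1 / 2 : ℝ)..c, S x := by
    intro c hc1 hc2
    have e1 : ∫ x in (1 - c)..(1 / 2 : ℝ), P x = ∫ x in (1 / 2 : ℝ)..c, P (1 - x) := by
      rw [intervalIntegral.integral_comp_sub_left]
      norm_num
    rw [← intervalIntegral.integral_add_adjacent_intervals
      (hii P hc (1 - c) (1 / 2) (by linarith) (by linarith) (by norm_num))
      (hii P hc (1 / 2) c (by norm_num) hc1 hc2), e1]
    simp only [hS]
    rw [intervalIntegral.integral_add (hii P hc _ _ (by norm_num) hc1 hc2)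
      (hii _ hrefl _ _ (by norm_num) hc1 hc2)]
    ring
  have f1 := fold 1 (by norm_num) le_rfl
  rw [sub_self] at f1
  have f2 := fold (Real.sqrt 3 / 2) (by linarith) (by linarith)
  have hsplit : ∫ x in (1 / 2 : ℝ)..1, S x
      = (∫ x in (1 / 2 : ℝ)..(Real.sqrt 3 / 2), S x) + ∫ x in (Real.sqrt 3 / 2)..1, S x :=
    (intervalIntegral.integral_add_adjacent_intervals
      (hii S hSc _ _ (by norm_num) (by linarith) (by linarith))
      (hii S hSc _ _ (by linarith) (by linarith) le_rfl)).symm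
  have hc1 : ContinuousOn S (Icc (1 / 2) (Real.sqrt 3 / 2)) :=
    hSc.mono (Icc_subset_Icc (by norm_num) (by linarith))
  have hc2 : ContinuousOn S (Icc (Real.sqrt 3 / 2) 1) :=
    hSc.mono (Icc_subset_Icc (by linarith) le_rfl)
  have g1 := subst_u hc1
  have g2 := subst_c hc2
  have hcont1 : ContinuousOn (fun s => S (Real.cos (Real.pi / 3 - s))) (Icc 0 (Real.pi / 6)) := by
    apply hc1.comp (f := fun s => Real.cos (Real.pi / 3 - s)) (by fun_prop)
    intro s hs; exact u_mem hs
  have hcont2 : ContinuousOn (fun s => S (Real.cos s)) (Icc 0 (Real.pi / 6)) := by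
    apply hc2.comp (f := fun s => Real.cos s) (by fun_prop)
    intro s hs; exact c_mem hs
  have hjj : ∀ f : ℝ → ℝ, ContinuousOn f (Icc 0 (Real.pi / 6)) →
      IntervalIntegrable f volume 0 (Real.pi / 6) := by
    intro f hf
    apply ContinuousOn.intervalIntegrable
    rw [uIcc_of_le pi6_pos.le]
    exact hf
  -- the four-sum inequality integrated
  have step1 : (∫ s in (0:ℝ)..(Real.pi / 6), 4 * (Real.sin s + Real.sin (Real.pi / 3 - s))
      * Real.sin s) + (∫ s in (0:ℝ)..(Real.pi / 6), S (Real.cos (Real.pi / 3 - s))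
        * (Real.sin (Real.pi / 3 - s) - Real.sin s)) ≤
      (∫ s in (0:ℝ)..(Real.pi / 6), S (Real.cos (Real.pi / 3 - s)) * Real.sin (Real.pi / 3 - s))
      + ∫ s in (0:ℝ)..(Real.pi / 6), S (Real.cos s) * Real.sin s := by
    have hA1 : IntervalIntegrable (fun s => 4 * (Real.sin s + Real.sin (Real.pi / 3 - s))
      * Real.sin s) volume 0 (Real.pi / 6) := hjj _ (by fun_prop)
    have hA2 : IntervalIntegrable (fun s => S (Real.cos (Real.pi / 3 - s))
        * (Real.sin (Real.pi / 3 - s) - Real.sin s)) volume 0 (Real.pi / 6) :=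
      hjj _ (hcont1.mul (by fun_prop))
    have hA3 : IntervalIntegrable (fun s => S (Real.cos (Real.pi / 3 - s))
        * Real.sin (Real.pi / 3 - s)) volume 0 (Real.pi / 6) :=
      hjj _ (hcont1.mul (by fun_prop))
    have hA4 : IntervalIntegrable (fun s => S (Real.cos s) * Real.sin s)
        volume 0 (Real.pi / 6) := hjj _ (hcont2.mul (by fun_prop))
    rw [← intervalIntegral.integral_add hA1 hA2, ← intervalIntegral.integral_add hA3 hA4]
    apply intervalIntegral.integral_mono_on pi6_pos.le (hA1.add hA2) (hA3.add hA4)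
    intro s hs
    have h := h4 s hs
    have hsin : 0 ≤ Real.sin s := Real.sin_nonneg_of_nonneg_of_le_pi hs.1
      (by linarith [hs.2, Real.pi_pos])
    have h' : 4 * (Real.sin s + Real.sin (Real.pi / 3 - s))
      ≤ S (Real.cos s) + S (Real.cos (Real.pi / 3 - s)) := by
      simp only [hS]; linarith
    have := mul_le_mul_of_nonneg_right h' hsin
    nlinarith
  rw [int_4] at step1
  -- pivot
  set f : ℝ → ℝ := fun x => S x - S (1 / 2) with hf
  have hpv : 0 ≤ ∫ s in (0:ℝ)..(Real.pi / 6), f (Real.cos (Real.pi / 3 - s)) * gw s := by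
    apply pivot
    · exact hc1.sub continuousOn_const
    · have := hScc.subset (Icc_subset_Icc (by norm_num) (by linarith) :
        Icc (1 / 2 : ℝ) (Real.sqrt 3 / 2) ⊆ Icc 0 1) (convex_Icc _ _)
      exact this.sub (convexOn_const _ (convex_Icc _ _))
    · simp [hf]
    · intro x hx
      have hx01 : x ∈ Icc (0:ℝ) 1 := ⟨by linarith [hx.1], by linarith [hx.2]⟩
      have hx01' : 1 - x ∈ Icc (0:ℝ) 1 := ⟨by linarith [hx.2], by linarith [hx.1]⟩
      have := hScc.2 hx01 hx01' (by norm_num : (0:ℝ) ≤ 1 / 2) (by norm_num : (0:ℝ) ≤ 1 / 2)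
        (by norm_num)
      simp only [smul_eq_mul] at this
      have e : 1 / 2 * x + 1 / 2 * (1 - x) = 1 / 2 := by ring
      rw [e] at this
      have e2 : S (1 - x) = S x := by
        simp only [hS, sub_sub_cancel]; ring
      rw [e2] at this
      simp only [hf]
      linarith
  have hexp : ∫ s in (0:ℝ)..(Real.pi / 6), f (Real.cos (Real.pi / 3 - s)) * gw s
      = (∫ s in (0:ℝ)..(Real.pi / 6), S (Real.cos (Real.pi / 3 - s))
          * (Real.sin (Real.pi / 3 - s) - Real.sin s))
        - 0.482 * (∫ s in (0:ℝ)..(Real.pi / 6), S (Real.cos (Real.pi / 3 - s))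
          * Real.sin (Real.pi / 3 - s))
        - S (1 / 2) * (∫ s in (0:ℝ)..(Real.pi / 6), (Real.sin (Real.pi / 3 - s) - Real.sin s))
        + 0.482 * S (1 / 2) * (∫ s in (0:ℝ)..(Real.pi / 6), (1:ℝ) * Real.sin (Real.pi / 3 - s)) := by
    rw [← intervalIntegral.integral_const_mul, ← intervalIntegral.integral_const_mul,
      ← intervalIntegral.integral_const_mul, ← intervalIntegral.integral_sub,
      ← intervalIntegral.integral_sub, ← intervalIntegral.integral_add]
    · apply intervalIntegral.integral_congr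
      intro s _
      simp only [hf, gw]
      ring
    · apply hjj
      apply ContinuousOn.sub
      · apply ContinuousOn.sub (hcont1.mul (by fun_prop))
        exact ContinuousOn.mul continuousOn_const (hcont1.mul (by fun_prop))
      · fun_prop
    · apply hjj; fun_prop
    · apply hjj
      apply ContinuousOn.sub (hcont1.mul (by fun_prop))
      exact ContinuousOn.mul continuousOn_const (hcont1.mul (by fun_prop))
    · apply hjj; fun_prop
    · exact hjj _ (hcont1.mul (by fun_prop))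
    · apply hjj
      exact ContinuousOn.mul continuousOn_const (hcont1.mul (by fun_prop))
  have g3 := subst_u (g := fun _ => (1:ℝ)) continuousOn_const
  have g3' : ∫ x in (1 / 2 : ℝ)..(Real.sqrt 3 / 2), (1:ℝ) = Real.sqrt 3 / 2 - 1 / 2 := by
    simp
  rw [g3'] at g3
  rw [hexp, int_w, g1, g3, hShalf] at hpv
  rw [f1, hsplit, ← g1, ← g2]
  rw [f2]
  rw [g1]
  rw [g1] at step1
  nlinarith

end Pool.Agent.V7H8.Cover
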